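import Mathlib

/-!
# Weakly compact operators and the weak essential norm
-/

open Set Filter Topology

namespace Pool.Agent.WeakEss

section defs

variable {𝕜 : Type*} [RCLike 𝕜] {E F : Type*} [NormedAddCommGroup E] [NormedSpace 𝕜 E]
  [NormedAddCommGroup F] [NormedSpace 𝕜 F]

/-- A bounded operator is weakly compact if the image of the closed unit ball is relatively
compact in the weak topology of the target. -/
def IsWeaklyCompactOperator (W : E →L[𝕜] F) : Prop :=
  IsCompact (closure ((toWeakSpace 𝕜 F) '' (W '' Metric.closedBall (0 : E) 1)))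

/-- The weak essential norm: distance to the weakly compact operators. -/
noncomputable def weakEssNorm (T : E →L[𝕜] F) : ℝ :=
  sInf {r : ℝ | ∃ W : E →L[𝕜] F, IsWeaklyCompactOperator W ∧ r = ‖T - W‖}

/-- The adjoint operator `T* : F* → E*`, `T* φ = φ ∘ T`. -/
noncomputable def adjointOp (T : E →L[𝕜] F) : StrongDual 𝕜 F →L[𝕜] StrongDual 𝕜 E :=
  (ContinuousLinearMap.compL 𝕜 E F 𝕜).flip T

@[simp] theorem adjointOp_apply (T : E →L[𝕜] F) (φ : StrongDual 𝕜 F) (x : E) :
    adjointOp T φ x = φ (T x) := rfl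

end defs

section hilbert

variable {𝕜 : Type*} [RCLike 𝕜]

/-- Closed balls of a Hilbert space are weakly compact. -/
theorem isCompact_closedBall_hilbert {H : Type*} [NormedAddCommGroup H] [InnerProductSpace 𝕜 H]
    [CompleteSpace H] (r : ℝ) :
    IsCompact ((toWeakSpace 𝕜 H) '' Metric.closedBall (0 : H) r) := by
  have h1 : IsCompact (WeakDual.toStrongDual ⁻¹' Metric.closedBall (0 : StrongDual 𝕜 H) r) :=
    WeakDual.isCompact_closedBall (𝕜 := 𝕜) (0 : StrongDual 𝕜 H) r
  let J : WeakDual 𝕜 H → WeakSpace 𝕜 H := fun φ =>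
    toWeakSpace 𝕜 H ((InnerProductSpace.toDual 𝕜 H).symm (WeakDual.toStrongDual φ))
  have hJ : Continuous J := by
    apply WeakBilin.continuous_of_continuous_eval
    intro l
    have h2 : ∀ φ : WeakDual 𝕜 H, (topDualPairing 𝕜 H).flip (J φ) l =
        (starRingEnd 𝕜) (φ ((InnerProductSpace.toDual 𝕜 H).symm l)) := by
      intro φ
      change l ((InnerProductSpace.toDual 𝕜 H).symm (WeakDual.toStrongDual φ)) = _
      conv_lhs => rw [← (InnerProductSpace.toDual 𝕜 H).apply_symm_apply l]
      rw [InnerProductSpace.toDual_apply_apply]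
      rw [← inner_conj_symm]
      congr 1
      rw [← InnerProductSpace.toDual_apply_apply]
      rw [LinearIsometryEquiv.apply_symm_apply]
      rfl
    have h3 : (fun φ : WeakDual 𝕜 H => (topDualPairing 𝕜 H).flip (J φ) l) =
        fun φ : WeakDual 𝕜 H => (starRingEnd 𝕜) (φ ((InnerProductSpace.toDual 𝕜 H).symm l)) :=
      funext h2
    rw [h3]
    exact RCLike.continuous_conj.comp (WeakDual.eval_continuous _)
  have h4 := h1.image hJ
  convert h4 using 1
  ext x
  constructor
  · rintro ⟨y, hy, rfl⟩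
    refine ⟨StrongDual.toWeakDual (InnerProductSpace.toDual 𝕜 H y), ?_, ?_⟩
    · simp only [mem_preimage, Metric.mem_closedBall, dist_zero_right] at hy ⊢
      have : ‖(InnerProductSpace.toDual 𝕜 H) y‖ = ‖y‖ := LinearIsometryEquiv.norm_map _ _
      change ‖(InnerProductSpace.toDual 𝕜 H) y‖ ≤ r
      rw [this]; exact hy
    · change toWeakSpace 𝕜 H ((InnerProductSpace.toDual 𝕜 H).symm (InnerProductSpace.toDual 𝕜 H y)) = _
      rw [LinearIsometryEquiv.symm_apply_apply]
  · rintro ⟨φ, hφ, rfl⟩
    refine ⟨(InnerProductSpace.toDual 𝕜 H).symm (WeakDual.toStrongDual φ), ?_, rfl⟩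
    simp only [mem_preimage, Metric.mem_closedBall, dist_zero_right] at hφ ⊢
    rw [LinearIsometryEquiv.norm_map]
    exact hφ

end hilbert

end Pool.Agent.WeakEss
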