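import Mathlib

/-!
# Extraction of a sequence with small off-diagonal entries
-/

open Set Filter Topology

namespace Pool.Agent.WeakEss

/-- Recursive choice of a sequence whose initial segments satisfy given properties. -/
theorem exists_seq {α : Type*} [Nonempty α] (P : ℕ → (ℕ → α) → Prop)
    (hcongr : ∀ n x y, (∀ k < n, x k = y k) → P n x → P n y)
    (h0 : ∀ x, P 0 x) (hstep : ∀ n x, P n x → ∃ a, P (n + 1) (Function.update x n a)) :
    ∃ x, ∀ n, P n x := by
  classical
  choose! next hnext using hstep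
  let F : (n : ℕ) → {x : ℕ → α // P n x} := fun n =>
    Nat.rec (motive := fun n => {x : ℕ → α // P n x})
      ⟨fun _ => Classical.arbitrary α, h0 _⟩
      (fun n x => ⟨Function.update x.1 n (next n x.1), hnext n x.1 x.2⟩) n
  have hF : ∀ n, (F (n + 1)).1 = Function.update (F n).1 n (next n (F n).1) := fun n => rfl
  let x : ℕ → α := fun n => (F (n + 1)).1 n
  have key : ∀ n, ∀ k < n, (F n).1 k = x k := by
    intro n
    induction n with
    | zero => intro k hk; exact absurd hk (Nat.not_lt_zero k)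
    | succ n ih =>
      intro k hk
      rcases Nat.lt_succ_iff_lt_or_eq.mp hk with h | h
      · rw [hF, Function.update_of_ne h.ne]
        exact ih k h
      · rw [h]
  exact ⟨x, fun n => hcongr n _ _ (key n) (F n).2⟩

/-- The combinatorial extraction lemma. -/
theorem extract {α : Type*} (V : α → α → ℝ) (hV : ∀ a b, 0 ≤ V a b) (r : α → ℝ) {M ρ : ℝ}
    (hr : ∀ a, r a ≤ M) (σ : ℕ → Type) [∀ N, Fintype (σ N)] (w : (N : ℕ) → σ N → ℝ)
    (hw : ∀ N i, 0 ≤ w N i) (hw1 : ∀ N, ∑ i, w N i = 1) (p : (N : ℕ) → σ N → α)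
    (hρ : ∀ N, ρ ≤ ∑ i, w N i * r (p N i)) (η : ℕ → ℝ)
    (hη : ∀ N a, ∑ i, w N i * V a (p N i) ≤ η N) (hη0 : Tendsto η atTop (𝓝 0))
    {δ : ℝ} (hδ : 0 < δ) (c : ℕ → ℝ) (hc : ∀ n, 0 < c n) :
    ∃ x : ℕ → α, (∀ k, ρ - δ ≤ r (x k)) ∧ ∀ j k, j ≠ k → V (x j) (x k) ≤ c k := by
  classical
  have hne : ∀ N, Nonempty (σ N) := by
    intro N
    by_contra hcon
    rw [not_nonempty_iff] at hcon
    have := hw1 N
    simp at this
  have : Nonempty α := ⟨p 0 (Classical.choice (hne 0))⟩
  have hρM : ρ ≤ M := by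
    calc ρ ≤ ∑ i, w 0 i * r (p 0 i) := hρ 0
      _ ≤ ∑ i, w 0 i * M := Finset.sum_le_sum fun i _ => mul_le_mul_of_nonneg_left (hr _) (hw 0 i)
      _ = M := by rw [← Finset.sum_mul, hw1, one_mul]
  set C := M - ρ + δ with hC
  have hC0 : 0 < C := by rw [hC]; linarith
  set d : ℕ → ℝ := fun k => (δ / 4) * (1 / 2) ^ k * c k / C with hd
  have hd0 : ∀ k, 0 < d k := by
    intro k
    have := hc k
    simp only [hd]
    positivity
  set m : ℕ → α → ℝ := fun N b => ∑ i, w N i * V (p N i) b with hm
  have hm0 : ∀ N b, 0 ≤ m N b := fun N b =>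
    Finset.sum_nonneg fun i _ => mul_nonneg (hw N i) (hV _ _)
  have hmm : ∀ N N', ∑ i, w N i * m N' (p N i) ≤ η N := by
    intro N N'
    calc ∑ i, w N i * m N' (p N i)
        = ∑ i, ∑ j, w N' j * (w N i * V (p N' j) (p N i)) := by
          refine Finset.sum_congr rfl fun i _ => ?_
          rw [hm, Finset.mul_sum]
          refine Finset.sum_congr rfl fun j _ => ?_
          ring
      _ = ∑ j, w N' j * ∑ i, w N i * V (p N' j) (p N i) := by
          rw [Finset.sum_comm]
          refine Finset.sum_congr rfl fun j _ => ?_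
          rw [Finset.mul_sum]
      _ ≤ ∑ j, w N' j * η N :=
          Finset.sum_le_sum fun j _ => mul_le_mul_of_nonneg_left (hη _ _) (hw N' j)
      _ = η N := by rw [← Finset.sum_mul, hw1, one_mul]
  let 𝒰 : Ultrafilter ℕ := Ultrafilter.of atTop
  have h𝒰 : (𝒰 : Filter ℕ) ≤ atTop := Ultrafilter.of_le _
  let P : ℕ → (ℕ → α) → Prop := fun n x =>
    (∀ k < n, ρ - δ ≤ r (x k)) ∧ (∀ j < n, ∀ k < n, j ≠ k → V (x j) (x k) ≤ c k) ∧
      (∀ k < n, ∀ᶠ N in (𝒰 : Filter ℕ), m N (x k) ≤ d k)
  have hstep : ∀ n x, P n x → ∃ a, P (n + 1) (Function.update x n a) := by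
    rintro n x ⟨hx1, hx2, hx3⟩
    set A := C / c n with hA
    set B : ℕ → ℝ := fun k => C / c k with hB
    set D := C / d n with hD
    have hA0 : 0 < A := div_pos hC0 (hc n)
    have hB0 : ∀ k, 0 < B k := fun k => div_pos hC0 (hc k)
    have hD0 : 0 < D := div_pos hC0 (hd0 n)
    have hev1 : ∀ᶠ N in (𝒰 : Filter ℕ), ∀ k < n, m N (x k) ≤ d k := by
      have : ∀ᶠ N in (𝒰 : Filter ℕ), ∀ k ∈ Finset.range n, m N (x k) ≤ d k := by
        rw [eventually_all_finset]
        intro k hk
        exact hx3 k (Finset.mem_range.mp hk)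
      filter_upwards [this] with N hN k hk
      exact hN k (Finset.mem_range.mpr hk)
    have hev2 : ∀ᶠ N in (𝒰 : Filter ℕ), (A * n + D) * η N ≤ δ / 2 := by
      have h1 : Tendsto (fun N => (A * n + D) * η N) atTop (𝓝 0) := by
        have := hη0.const_mul (A * n + D)
        rwa [mul_zero] at this
      exact h𝒰 (h1.eventually_le_const (by positivity))
    obtain ⟨N, hN1, hN2⟩ := (hev1.and hev2).exists
    let Q : ℕ → α → ℝ := fun N' a => r a - A * ∑ j ∈ Finset.range n, V (x j) a
      - ∑ k ∈ Finset.range n, B k * V a (x k) - D * m N' a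
    have hBd : ∑ k ∈ Finset.range n, B k * m N (x k) ≤ δ / 2 := by
      calc ∑ k ∈ Finset.range n, B k * m N (x k)
          ≤ ∑ k ∈ Finset.range n, B k * d k :=
            Finset.sum_le_sum fun k hk =>
              mul_le_mul_of_nonneg_left (hN1 k (Finset.mem_range.mp hk)) (hB0 k).le
        _ = ∑ k ∈ Finset.range n, (δ / 4) * (1 / 2) ^ k := by
            refine Finset.sum_congr rfl fun k _ => ?_
            have := hc k
            simp only [hB, hd]
            field_simp
        _ = (δ / 4) * ∑ k ∈ Finset.range n, (1 / 2 : ℝ) ^ k := by rw [Finset.mul_sum]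
        _ ≤ (δ / 4) * 2 := by
            gcongr
            exact (summable_geometric_two.sum_le_tsum _ (fun _ _ => by positivity)).trans
              tsum_geometric_two.le
        _ = δ / 2 := by ring
    have hQavg : ∀ N', ρ - δ ≤ ∑ i, w N i * Q N' (p N i) := by
      intro N'
      have e1 : ∑ i, w N i * Q N' (p N i) = ∑ i, w N i * r (p N i)
          - A * ∑ j ∈ Finset.range n, ∑ i, w N i * V (x j) (p N i)
          - ∑ k ∈ Finset.range n, B k * m N (x k) - D * ∑ i, w N i * m N' (p N i) := by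
        have e2 : A * ∑ j ∈ Finset.range n, ∑ i, w N i * V (x j) (p N i)
            = ∑ i, w N i * (A * ∑ j ∈ Finset.range n, V (x j) (p N i)) := by
          rw [Finset.sum_comm, Finset.mul_sum]
          refine Finset.sum_congr rfl fun i _ => ?_
          rw [← Finset.mul_sum]; ring
        have e3 : ∑ k ∈ Finset.range n, B k * m N (x k)
            = ∑ i, w N i * ∑ k ∈ Finset.range n, B k * V (p N i) (x k) := by
          simp only [hm, Finset.mul_sum]
          rw [Finset.sum_comm]
          refine Finset.sum_congr rfl fun i _ => Finset.sum_congr rfl fun k _ => ?_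
          ring
        have e4 : D * ∑ i, w N i * m N' (p N i) = ∑ i, w N i * (D * m N' (p N i)) := by
          rw [Finset.mul_sum]
          refine Finset.sum_congr rfl fun i _ => ?_
          ring
        rw [e2, e3, e4, ← Finset.sum_sub_distrib, ← Finset.sum_sub_distrib,
          ← Finset.sum_sub_distrib]
        refine Finset.sum_congr rfl fun i _ => ?_
        simp only [Q]
        ring
      rw [e1]
      have e5 : A * ∑ j ∈ Finset.range n, ∑ i, w N i * V (x j) (p N i) ≤ A * (n * η N) := by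
        gcongr
        calc ∑ j ∈ Finset.range n, ∑ i, w N i * V (x j) (p N i)
            ≤ ∑ _j ∈ Finset.range n, η N := Finset.sum_le_sum fun j _ => hη N _
          _ = n * η N := by simp
      have e6 : D * ∑ i, w N i * m N' (p N i) ≤ D * η N := by
        gcongr
        exact hmm N N'
      have e7 := hρ N
      have e8 : (A * n + D) * η N = A * (n * η N) + D * η N := by ring
      linarith
    have hex : ∀ N', ∃ i, ρ - δ ≤ Q N' (p N i) := by
      intro N'
      by_contra hcon
      push Not at hcon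
      obtain ⟨i0, hi0⟩ : ∃ i0, 0 < w N i0 := by
        by_contra hcon'
        push Not at hcon'
        have : ∑ i, w N i ≤ 0 := Finset.sum_nonpos fun i _ => hcon' i
        rw [hw1] at this
        linarith
      have : ∑ i, w N i * Q N' (p N i) < ∑ i, w N i * (ρ - δ) := by
        apply Finset.sum_lt_sum
        · intro i _
          exact mul_le_mul_of_nonneg_left (hcon i).le (hw N i)
        · exact ⟨i0, Finset.mem_univ _, mul_lt_mul_of_pos_left (hcon i0) hi0⟩
      rw [← Finset.sum_mul, hw1, one_mul] at this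
      exact absurd (hQavg N') (not_le.mpr this)
    obtain ⟨i, hi⟩ : ∃ i, ∀ᶠ N' in (𝒰 : Filter ℕ), ρ - δ ≤ Q N' (p N i) := by
      by_contra hcon
      have h1 : ∀ i, ∀ᶠ N' in (𝒰 : Filter ℕ), ¬ (ρ - δ ≤ Q N' (p N i)) := by
        intro i
        rw [Ultrafilter.eventually_not]
        exact fun hi => hcon ⟨i, hi⟩
      have h2 : ∀ᶠ N' in (𝒰 : Filter ℕ), ∀ i, ¬ (ρ - δ ≤ Q N' (p N i)) := eventually_all.mpr h1
      obtain ⟨N', hN'⟩ := h2.exists
      obtain ⟨i, hi⟩ := hex N'
      exact hN' i hi
    set a := p N i with ha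
    have hS1 : 0 ≤ ∑ j ∈ Finset.range n, V (x j) a := Finset.sum_nonneg fun j _ => hV _ _
    have hS2 : 0 ≤ ∑ k ∈ Finset.range n, B k * V a (x k) :=
      Finset.sum_nonneg fun k _ => mul_nonneg (hB0 k).le (hV _ _)
    have hra : r a ≤ M := hr a
    have hfacts : ∀ N', ρ - δ ≤ Q N' a → ρ - δ ≤ r a ∧ A * ∑ j ∈ Finset.range n, V (x j) a ≤ C ∧
        ∑ k ∈ Finset.range n, B k * V a (x k) ≤ C ∧ D * m N' a ≤ C := by
      intro N' hN'
      have e1 : 0 ≤ A * ∑ j ∈ Finset.range n, V (x j) a := mul_nonneg hA0.le hS1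
      have e2 : 0 ≤ D * m N' a := mul_nonneg hD0.le (hm0 _ _)
      simp only [Q] at hN'
      refine ⟨by linarith, by linarith, by linarith, by linarith⟩
    obtain ⟨N₀, hN₀⟩ := hi.exists
    obtain ⟨f1, f2, f3, -⟩ := hfacts N₀ hN₀
    have hVa : ∀ j < n, V (x j) a ≤ c n := by
      intro j hj
      have e1 : V (x j) a ≤ ∑ j ∈ Finset.range n, V (x j) a :=
        Finset.single_le_sum (f := fun j => V (x j) a) (fun j _ => hV _ _) (Finset.mem_range.mpr hj)
      have e2 : A * V (x j) a ≤ C := (mul_le_mul_of_nonneg_left e1 hA0.le).trans f2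
      rw [hA, div_mul_eq_mul_div, div_le_iff₀ (hc n)] at e2
      exact le_of_mul_le_mul_left e2 hC0
    have haV : ∀ k < n, V a (x k) ≤ c k := by
      intro k hk
      have e1 : B k * V a (x k) ≤ ∑ k ∈ Finset.range n, B k * V a (x k) :=
        Finset.single_le_sum (f := fun k => B k * V a (x k))
          (fun k _ => mul_nonneg (hB0 k).le (hV _ _)) (Finset.mem_range.mpr hk)
      have e2 : B k * V a (x k) ≤ C := e1.trans f3
      simp only [hB] at e2
      rw [div_mul_eq_mul_div, div_le_iff₀ (hc k)] at e2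
      exact le_of_mul_le_mul_left e2 hC0
    have hma : ∀ᶠ N' in (𝒰 : Filter ℕ), m N' a ≤ d n := by
      filter_upwards [hi] with N' hN'
      obtain ⟨-, -, -, f4⟩ := hfacts N' hN'
      rw [hD, div_mul_eq_mul_div, div_le_iff₀ (hd0 n)] at f4
      exact le_of_mul_le_mul_left f4 hC0
    refine ⟨a, ?_, ?_, ?_⟩
    · intro k hk
      rcases Nat.lt_succ_iff_lt_or_eq.mp hk with h | h
      · rw [Function.update_of_ne h.ne]; exact hx1 k h
      · rw [h, Function.update_self]; exact f1
    · intro j hj k hk hjk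
      rcases Nat.lt_succ_iff_lt_or_eq.mp hj with h | h
      · rcases Nat.lt_succ_iff_lt_or_eq.mp hk with h' | h'
        · rw [Function.update_of_ne h.ne, Function.update_of_ne h'.ne]
          exact hx2 j h k h' hjk
        · rw [h', Function.update_self, Function.update_of_ne h.ne]
          exact hVa j h
      · rcases Nat.lt_succ_iff_lt_or_eq.mp hk with h' | h'
        · rw [h, Function.update_self, Function.update_of_ne h'.ne]
          exact haV k h'
        · exact absurd (h.trans h'.symm) hjk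
    · intro k hk
      rcases Nat.lt_succ_iff_lt_or_eq.mp hk with h | h
      · rw [Function.update_of_ne h.ne]; exact hx3 k h
      · rw [h, Function.update_self]; exact hma
  have hcongr : ∀ n x y, (∀ k < n, x k = y k) → P n x → P n y := by
    rintro n x y hxy ⟨hx1, hx2, hx3⟩
    refine ⟨fun k hk => ?_, fun j hj k hk hjk => ?_, fun k hk => ?_⟩
    · rw [← hxy k hk]; exact hx1 k hk
    · rw [← hxy k hk, ← hxy j hj]; exact hx2 j hj k hk hjk
    · rw [← hxy k hk]; exact hx3 k hk
  have h0 : ∀ x, P 0 x := fun x =>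
    ⟨fun k hk => absurd hk (Nat.not_lt_zero k), fun j hj => absurd hj (Nat.not_lt_zero j),
      fun k hk => absurd hk (Nat.not_lt_zero k)⟩
  obtain ⟨x, hx⟩ := exists_seq P hcongr h0 hstep
  refine ⟨x, fun k => (hx (k + 1)).1 k (Nat.lt_succ_self k), fun j k hjk => ?_⟩
  exact (hx (max j k + 1)).2.1 j (by omega) k (by omega) hjk

end Pool.Agent.WeakEss
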