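import Pool.Agent.WeakEss.Minimax
import Pool.Agent.WeakEss.Extract

/-!
# A family of functionals near a weakly compact set is almost dominated
-/

set_option linter.unusedSectionVars false

open Set Filter Topology

namespace Pool.Agent.WeakEss

variable {𝕜 : Type*} [RCLike 𝕜] {L : Type*} [TopologicalSpace L] [CompactSpace L]

/-- The value of the variation of `ψ` on `h`. -/
noncomputable def vr (ψ : StrongDual 𝕜 C(L, 𝕜)) (h : C(L, ℝ)) : ℝ :=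
  sSup {r : ℝ | ∃ f : C(L, 𝕜), nrm f ≤ h ∧ r = ‖ψ f‖}

theorem norm_le_of_nrm_le {f : C(L, 𝕜)} {h : C(L, ℝ)} (hf : nrm f ≤ h) : ‖f‖ ≤ ‖h‖ := by
  rw [ContinuousMap.norm_le _ (norm_nonneg _)]
  intro x
  have h1 : ‖f x‖ ≤ h x := hf x
  exact h1.trans ((le_abs_self _).trans (h.norm_coe_le_norm x))

theorem vr_bdd (ψ : StrongDual 𝕜 C(L, 𝕜)) (h : C(L, ℝ)) :
    BddAbove {r : ℝ | ∃ f : C(L, 𝕜), nrm f ≤ h ∧ r = ‖ψ f‖} := by
  refine ⟨‖ψ‖ * ‖h‖, ?_⟩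
  rintro _ ⟨f, hf, rfl⟩
  calc ‖ψ f‖ ≤ ‖ψ‖ * ‖f‖ := ψ.le_opNorm f
    _ ≤ ‖ψ‖ * ‖h‖ := by
      gcongr
      exact norm_le_of_nrm_le hf

theorem le_vr (ψ : StrongDual 𝕜 C(L, 𝕜)) {h : C(L, ℝ)} {f : C(L, 𝕜)} (hf : nrm f ≤ h) :
    ‖ψ f‖ ≤ vr ψ h := le_csSup (vr_bdd ψ h) ⟨f, hf, rfl⟩

theorem nrm_zero : nrm (0 : C(L, 𝕜)) = 0 := by ext x; simp

theorem vr_nonneg (ψ : StrongDual 𝕜 C(L, 𝕜)) {h : C(L, ℝ)} (hh : 0 ≤ h) : 0 ≤ vr ψ h :=
  (norm_nonneg _).trans (le_vr ψ (f := 0) (by rw [nrm_zero]; exact hh))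

theorem sum_vr_le (ψ : StrongDual 𝕜 C(L, 𝕜)) {σ : Type*} [Fintype σ] (w : σ → ℝ)
    (hw : ∀ i, 0 ≤ w i) (hw1 : ∑ i, w i = 1) (g : σ → C(L, ℝ)) (hg : ∀ i, 0 ≤ g i) :
    ∑ i, w i * vr ψ (g i) ≤ ‖ψ‖ * ‖∑ i, w i • g i‖ := by
  apply le_of_forall_pos_le_add
  intro δ hδ
  have h1 : ∀ i, ∃ f : C(L, 𝕜), nrm f ≤ g i ∧ vr ψ (g i) - δ ≤ ‖ψ f‖ ∧
      ψ f = ((‖ψ f‖ : ℝ) : 𝕜) := by
    intro i
    obtain ⟨_, ⟨f, hf, rfl⟩, h2⟩ := exists_lt_of_lt_csSup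
      (⟨_, 0, by rw [nrm_zero]; exact hg i, rfl⟩ :
        {r : ℝ | ∃ f : C(L, 𝕜), nrm f ≤ g i ∧ r = ‖ψ f‖}.Nonempty)
      (show vr ψ (g i) - δ < sSup {r : ℝ | ∃ f : C(L, 𝕜), nrm f ≤ g i ∧ r = ‖ψ f‖} by
        change vr ψ (g i) - δ < vr ψ (g i)
        linarith)
    obtain ⟨θ, hθ1, hθ2⟩ := RCLike.exists_norm_eq_mul_self (ψ f)
    have h3 : ‖ψ (θ • f)‖ = ‖ψ f‖ := by
      rw [ψ.map_smul, norm_smul, hθ1, one_mul]
    refine ⟨θ • f, ?_, ?_, ?_⟩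
    · rw [nrm_smul, hθ1, one_smul]; exact hf
    · rw [h3]; exact h2.le
    · rw [h3, ψ.map_smul, smul_eq_mul, ← hθ2]
  choose f hf1 hf2 hf3 using h1
  have h2 : ψ (∑ i, ((w i : ℝ) : 𝕜) • f i) = ((∑ i, w i * ‖ψ (f i)‖ : ℝ) : 𝕜) := by
    rw [map_sum, RCLike.ofReal_sum]
    refine Finset.sum_congr rfl fun i _ => ?_
    rw [ψ.map_smul, smul_eq_mul, hf3 i, RCLike.ofReal_mul, RCLike.norm_ofReal, abs_norm]
  have h3 : nrm (∑ i, ((w i : ℝ) : 𝕜) • f i) ≤ ∑ i, w i • g i := by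
    intro x
    change ‖(∑ i, ((w i : ℝ) : 𝕜) • f i) x‖ ≤ (∑ i, w i • g i) x
    rw [ContinuousMap.sum_apply, ContinuousMap.sum_apply]
    refine (norm_sum_le _ _).trans (Finset.sum_le_sum fun i _ => ?_)
    have e1 : ‖f i x‖ ≤ g i x := hf1 i x
    rw [ContinuousMap.smul_apply, ContinuousMap.smul_apply, norm_smul, RCLike.norm_ofReal,
      abs_of_nonneg (hw i), smul_eq_mul]
    exact mul_le_mul_of_nonneg_left e1 (hw i)
  have h4 : ∑ i, w i * ‖ψ (f i)‖ ≤ ‖ψ‖ * ‖∑ i, w i • g i‖ := by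
    have e1 : 0 ≤ ∑ i, w i * ‖ψ (f i)‖ :=
      Finset.sum_nonneg fun i _ => mul_nonneg (hw i) (norm_nonneg _)
    calc ∑ i, w i * ‖ψ (f i)‖ = ‖ψ (∑ i, ((w i : ℝ) : 𝕜) • f i)‖ := by
          rw [h2, RCLike.norm_ofReal, abs_of_nonneg e1]
      _ ≤ ‖ψ‖ * ‖∑ i, ((w i : ℝ) : 𝕜) • f i‖ := ψ.le_opNorm _
      _ ≤ ‖ψ‖ * ‖∑ i, w i • g i‖ := by
          gcongr
          exact norm_le_of_nrm_le h3
  have h5 : ∑ i, w i * (vr ψ (g i) - δ) ≤ ∑ i, w i * ‖ψ (f i)‖ :=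
    Finset.sum_le_sum fun i _ => mul_le_mul_of_nonneg_left (hf2 i) (hw i)
  have h6 : ∑ i, w i * (vr ψ (g i) - δ) = ∑ i, w i * vr ψ (g i) - δ := by
    simp only [mul_sub, Finset.sum_sub_distrib, ← Finset.sum_mul, hw1, one_mul]
  linarith

/-! ### Gluing almost disjoint functions -/

/-- The glued functions. -/
noncomputable def glue (f : ℕ → C(L, 𝕜)) (s : ℕ → 𝕜) : ℕ → C(L, 𝕜)
  | 0 => 0
  | n + 1 => s n • f n + (1 - ⟨fun x => ((‖f n x‖ : ℝ) : 𝕜), by fun_prop⟩) * glue f s n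

theorem glue_succ_apply (f : ℕ → C(L, 𝕜)) (s : ℕ → 𝕜) (n : ℕ) (x : L) :
    glue f s (n + 1) x = s n * f n x + (1 - ((‖f n x‖ : ℝ) : 𝕜)) * glue f s n x := rfl

theorem norm_one_sub {f : C(L, 𝕜)} (hf : ‖f‖ ≤ 1) (x : L) :
    ‖(1 - ((‖f x‖ : ℝ) : 𝕜))‖ = 1 - ‖f x‖ := by
  have h1 : ‖f x‖ ≤ 1 := (f.norm_coe_le_norm x).trans hf
  have h2 : (1 - ((‖f x‖ : ℝ) : 𝕜)) = ((1 - ‖f x‖ : ℝ) : 𝕜) := by push_cast; rfl
  rw [h2, RCLike.norm_ofReal, abs_of_nonneg (by linarith)]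

theorem norm_glue_le (f : ℕ → C(L, 𝕜)) (hf : ∀ n, ‖f n‖ ≤ 1) (s : ℕ → 𝕜) (hs : ∀ n, ‖s n‖ ≤ 1)
    (n : ℕ) : ‖glue f s n‖ ≤ 1 := by
  rw [ContinuousMap.norm_le _ zero_le_one]
  induction n with
  | zero => intro x; simp [glue]
  | succ n ih =>
    intro x
    rw [glue_succ_apply]
    have h1 : ‖f n x‖ ≤ 1 := ((f n).norm_coe_le_norm x).trans (hf n)
    calc ‖s n * f n x + (1 - ((‖f n x‖ : ℝ) : 𝕜)) * glue f s n x‖
        ≤ ‖s n‖ * ‖f n x‖ + (1 - ‖f n x‖) * ‖glue f s n x‖ := by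
          refine (norm_add_le _ _).trans ?_
          rw [norm_mul, norm_mul, norm_one_sub (hf n)]
      _ ≤ 1 * ‖f n x‖ + (1 - ‖f n x‖) * 1 := by
          have h2 : 0 ≤ 1 - ‖f n x‖ := by linarith
          gcongr
          · exact hs n
          · exact ih x
      _ = 1 := by ring

theorem glue_small (ψ : StrongDual 𝕜 C(L, 𝕜)) (f : ℕ → C(L, 𝕜)) (hf : ∀ n, ‖f n‖ ≤ 1)
    (s : ℕ → 𝕜) (hs : ∀ n, ‖s n‖ ≤ 1) (n : ℕ) :
    ∀ u : C(L, 𝕜), (∀ x, ‖u x‖ ≤ 1) →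
      ‖ψ (u * glue f s n)‖ ≤ ∑ j ∈ Finset.range n, vr ψ (nrm (f j)) := by
  induction n with
  | zero => intro u hu; simp [glue]
  | succ n ih =>
    intro u hu
    rw [Finset.sum_range_succ]
    have e1 : u * glue f s (n + 1) = u * (s n • f n) +
        (u * (1 - ⟨fun x => ((‖f n x‖ : ℝ) : 𝕜), by fun_prop⟩)) * glue f s n := by
      ext x
      change u x * (s n * f n x + (1 - ((‖f n x‖ : ℝ) : 𝕜)) * glue f s n x) =
        u x * (s n * f n x) + (u x * (1 - ((‖f n x‖ : ℝ) : 𝕜))) * glue f s n x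
      ring
    rw [e1, map_add, add_comm]
    refine (norm_add_le _ _).trans (add_le_add ?_ ?_)
    · apply ih
      intro x
      change ‖u x * (1 - ((‖f n x‖ : ℝ) : 𝕜))‖ ≤ 1
      rw [norm_mul, norm_one_sub (hf n)]
      have h1 : ‖f n x‖ ≤ 1 := ((f n).norm_coe_le_norm x).trans (hf n)
      calc ‖u x‖ * (1 - ‖f n x‖) ≤ 1 * 1 := by
            gcongr
            · exact hu x
            · linarith [norm_nonneg (f n x)]
        _ = 1 := one_mul 1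
    · apply le_vr
      intro x
      change ‖u x * (s n * f n x)‖ ≤ ‖f n x‖
      rw [norm_mul, norm_mul]
      calc ‖u x‖ * (‖s n‖ * ‖f n x‖) ≤ 1 * (1 * ‖f n x‖) := by
            gcongr
            · exact hu x
            · exact hs n
        _ = ‖f n x‖ := by ring

/-- Values of functionals on the glued functions. -/
theorem glue_value (ψ : StrongDual 𝕜 C(L, 𝕜)) (f : ℕ → C(L, 𝕜)) (hf : ∀ n, ‖f n‖ ≤ 1)
    (s : ℕ → 𝕜) (hs : ∀ n, ‖s n‖ ≤ 1) (k : ℕ) (c : ℕ → ℝ) (hc : ∀ j, 0 ≤ c j)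
    (hψ : ∀ j, j ≠ k → vr ψ (nrm (f j)) ≤ c j) (n : ℕ) (hkn : k < n) :
    ‖ψ (glue f s n) - s k * ψ (f k)‖ ≤ 2 * ∑ j ∈ Finset.range n, c j := by
  induction n with
  | zero => exact absurd hkn (Nat.not_lt_zero k)
  | succ n ih =>
    rcases Nat.lt_succ_iff_lt_or_eq.mp hkn with h | h
    · have h1 := ih h
      have hne : n ≠ k := h.ne'
      have e1 : glue f s (n + 1) = glue f s n + (s n • f n -
          ⟨fun x => ((‖f n x‖ : ℝ) : 𝕜), by fun_prop⟩ * glue f s n) := by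
        ext x
        change s n * f n x + (1 - ((‖f n x‖ : ℝ) : 𝕜)) * glue f s n x =
          glue f s n x + (s n * f n x - ((‖f n x‖ : ℝ) : 𝕜) * glue f s n x)
        ring
      have e2 : ‖ψ (s n • f n)‖ ≤ c n := by
        refine (le_vr ψ ?_).trans (hψ n hne)
        intro x
        change ‖s n * f n x‖ ≤ ‖f n x‖
        rw [norm_mul]
        calc ‖s n‖ * ‖f n x‖ ≤ 1 * ‖f n x‖ := by
              gcongr
              exact hs n
          _ = ‖f n x‖ := one_mul _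
      have e3 : ‖ψ ((⟨fun x => ((‖f n x‖ : ℝ) : 𝕜), by fun_prop⟩ : C(L, 𝕜)) * glue f s n)‖ ≤ c n := by
        refine (le_vr ψ ?_).trans (hψ n hne)
        intro x
        change ‖((‖f n x‖ : ℝ) : 𝕜) * glue f s n x‖ ≤ ‖f n x‖
        rw [norm_mul, RCLike.norm_ofReal, abs_norm]
        calc ‖f n x‖ * ‖glue f s n x‖ ≤ ‖f n x‖ * 1 := by
              gcongr
              exact ((glue f s n).norm_coe_le_norm x).trans (norm_glue_le f hf s hs n)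
          _ = ‖f n x‖ := mul_one _
      rw [Finset.sum_range_succ, e1, map_add, map_sub]
      set A := ψ (s n • f n)
      set B := ψ ((⟨fun x => ((‖f n x‖ : ℝ) : 𝕜), by fun_prop⟩ : C(L, 𝕜)) * glue f s n)
      have e4 : ψ (glue f s n) + (A - B) - s k * ψ (f k) =
          (ψ (glue f s n) - s k * ψ (f k)) + (A - B) := by ring
      rw [e4]
      calc ‖(ψ (glue f s n) - s k * ψ (f k)) + (A - B)‖
          ≤ ‖ψ (glue f s n) - s k * ψ (f k)‖ + (‖A‖ + ‖B‖) :=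
            (norm_add_le _ _).trans (add_le_add le_rfl (norm_sub_le _ _))
        _ ≤ 2 * ∑ j ∈ Finset.range n, c j + (c n + c n) := by gcongr
        _ = 2 * (∑ j ∈ Finset.range n, c j + c n) := by ring
    · subst h
      have e1 : ψ (glue f s (k + 1)) - s k * ψ (f k) =
          ψ ((1 - ⟨fun x => ((‖f k x‖ : ℝ) : 𝕜), by fun_prop⟩) * glue f s k) := by
        change ψ (s k • f k + (1 - ⟨fun x => ((‖f k x‖ : ℝ) : 𝕜), by fun_prop⟩) * glue f s k) -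
          s k * ψ (f k) = _
        rw [map_add, ψ.map_smul, smul_eq_mul]
        ring
      rw [e1]
      have e2 := glue_small ψ f hf s hs k (1 - ⟨fun x => ((‖f k x‖ : ℝ) : 𝕜), by fun_prop⟩)
        (fun x => by
          change ‖(1 - ((‖f k x‖ : ℝ) : 𝕜))‖ ≤ 1
          rw [norm_one_sub (hf k)]
          linarith [norm_nonneg (f k x)])
      refine e2.trans ?_
      have e3 : ∑ j ∈ Finset.range k, vr ψ (nrm (f j)) ≤ ∑ j ∈ Finset.range k, c j :=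
        Finset.sum_le_sum fun j hj => hψ j (Finset.mem_range.mp hj).ne
      have e4 : 0 ≤ ∑ j ∈ Finset.range k, c j := Finset.sum_nonneg fun j _ => hc j
      rw [Finset.sum_range_succ]
      have := hc k
      linarith

/-- **Domination.** A bounded family of functionals within `ε` of a relatively weakly compact
family is dominated, up to any `ε' > ε`, by one positive functional. -/
theorem exists_lam {ι : Type*} [Nonempty ι] (μ φ : ι → StrongDual 𝕜 C(L, 𝕜)) {M ε ε' : ℝ}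
    (hM : ∀ i, ‖μ i‖ ≤ M) (hε : ∀ i, ‖μ i - φ i‖ ≤ ε)
    (hφ : IsCompact (closure (toWeakSpace 𝕜 (StrongDual 𝕜 C(L, 𝕜)) '' range φ)))
    (hεε : ε < ε') :
    ∃ lam : C(L, ℝ) →ₗ[ℝ] ℝ, Pos lam ∧ ∀ i f, ‖μ i f‖ ≤ lam (nrm f) + ε' * ‖f‖ := by
  by_contra hcon
  have hM0 : 0 ≤ M := (norm_nonneg _).trans (hM (Classical.arbitrary ι))
  have hre : ∀ i (f : C(L, 𝕜)), ‖f‖ ≤ 1 → RCLike.re (μ i f) ≤ M := by
    intro i f hf
    calc RCLike.re (μ i f) ≤ ‖μ i f‖ := RCLike.re_le_norm _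
      _ ≤ ‖μ i‖ * ‖f‖ := (μ i).le_opNorm f
      _ ≤ M * 1 := by
        gcongr
        exact hM i
      _ = M := mul_one M
  -- finite weighted families
  have h1 : ∀ N : ℕ, ∃ (σ : Type) (_ : Fintype σ) (w : σ → ℝ)
      (p : σ → ι × Metric.closedBall (0 : C(L, 𝕜)) 1),
      (∀ i, 0 ≤ w i) ∧ ∑ i, w i = 1 ∧ ε' ≤ ∑ i, w i * RCLike.re (μ (p i).1 (p i).2.1) ∧
      ‖∑ i, w i • nrm (p i).2.1‖ ≤ (M - ε') / (N + 1) := by
    intro N
    by_contra hcon'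
    apply hcon
    apply exists_functional μ (N := (N : ℝ) + 1) (by positivity)
    intro z hz
    by_contra hz'
    apply hcon'
    rw [mem_convexHull_iff_exists_fintype] at hz
    obtain ⟨σ, hσ, w, q, hw, hw1, hq, hqz⟩ := hz
    choose p hp using hq
    refine ⟨σ, hσ, w, p, hw, hw1, ?_⟩
    push Not at hz'
    have e1 : z.1 = ∑ i, w i • nrm (p i).2.1 := by
      rw [← hqz, Prod.fst_sum]
      refine Finset.sum_congr rfl fun i _ => ?_
      rw [← hp i]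
      rfl
    have e2 : z.2 = ∑ i, w i * RCLike.re (μ (p i).1 (p i).2.1) := by
      rw [← hqz, Prod.snd_sum]
      refine Finset.sum_congr rfl fun i _ => ?_
      rw [← hp i]
      rfl
    rw [← e1, ← e2]
    have hN0 : (0 : ℝ) < N + 1 := by positivity
    have e3 : 0 ≤ (N + 1 : ℝ) * ‖z.1‖ := by positivity
    have e4 : z.2 ≤ M := by
      rw [e2]
      calc ∑ i, w i * RCLike.re (μ (p i).1 (p i).2.1) ≤ ∑ i, w i * M :=
            Finset.sum_le_sum fun i _ => mul_le_mul_of_nonneg_left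
              (hre _ _ (mem_closedBall_zero_iff.mp (p i).2.2)) (hw i)
        _ = M := by rw [← Finset.sum_mul, hw1, one_mul]
    refine ⟨by linarith, ?_⟩
    rw [le_div_iff₀ hN0]
    linarith
  choose σ hσ w p hw hw1 hρ hη using h1
  set δ := (ε' - ε) / 4 with hδ
  have hδ0 : 0 < δ := by rw [hδ]; linarith
  set c : ℕ → ℝ := fun k => (δ / 4) * (1 / 2) ^ k with hc
  have hc0 : ∀ k, 0 < c k := fun k => by simp only [hc]; positivity
  have hcsum : ∀ n, 2 * ∑ j ∈ Finset.range n, c j ≤ δ := by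
    intro n
    have e1 : ∑ j ∈ Finset.range n, c j = (δ / 4) * ∑ j ∈ Finset.range n, (1 / 2 : ℝ) ^ j := by
      rw [Finset.mul_sum]
    have e2 : ∑ j ∈ Finset.range n, (1 / 2 : ℝ) ^ j ≤ 2 :=
      (summable_geometric_two.sum_le_tsum _ (fun _ _ => by positivity)).trans
        tsum_geometric_two.le
    rw [e1]
    nlinarith
  obtain ⟨x, hx1, hx2⟩ := extract
    (fun a b : ι × Metric.closedBall (0 : C(L, 𝕜)) 1 => vr (μ a.1) (nrm b.2.1))
    (fun a b => vr_nonneg _ (nrm_nonneg _))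
    (fun a => RCLike.re (μ a.1 a.2.1)) (M := M) (ρ := ε')
    (fun a => hre _ _ (mem_closedBall_zero_iff.mp a.2.2)) σ w hw hw1 p hρ
    (fun N => M * ((M - ε') / (N + 1)))
    (fun N a => by
      refine (sum_vr_le (μ a.1) (w N) (hw N) (hw1 N) (fun i => nrm (p N i).2.1)
        (fun i => nrm_nonneg _)).trans ?_
      gcongr
      · exact hM _
      · exact hη N)
    (by
      have := (tendsto_const_div_atTop_nhds_zero_nat (M - ε')).comp (tendsto_add_atTop_nat 1)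
      have h2 := this.const_mul M
      rw [mul_zero] at h2
      refine h2.congr (fun N => ?_)
      simp)
    hδ0 c hc0
  -- the functions and functionals
  set f : ℕ → C(L, 𝕜) := fun k => (x k).2.1 with hf
  have hf1 : ∀ k, ‖f k‖ ≤ 1 := fun k => mem_closedBall_zero_iff.mp (x k).2.2
  -- cluster point
  set y : ℕ → StrongDual 𝕜 C(L, 𝕜) := fun k => φ (x k).1 with hy
  obtain ⟨Y, -, hY⟩ := hφ.exists_mapClusterPt (f := atTop) (u := fun k =>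
    toWeakSpace 𝕜 (StrongDual 𝕜 C(L, 𝕜)) (y k)) (by
      rw [le_principal_iff, mem_map]
      exact univ_mem' fun k => subset_closure ⟨y k, ⟨_, rfl⟩, rfl⟩)
  set ψ := (toWeakSpace 𝕜 (StrongDual 𝕜 C(L, 𝕜))).symm Y with hψ
  have hclos : ∀ m : ℕ, ψ ∈ closure (convexHull ℝ (y '' Ici m)) := by
    intro m
    have e1 := Convex.toWeakSpace_closure 𝕜 (convex_convexHull ℝ (y '' Ici m))
    have e2 : Y ∈ closure (toWeakSpace 𝕜 (StrongDual 𝕜 C(L, 𝕜)) '' convexHull ℝ (y '' Ici m)) := by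
      rw [mem_closure_iff_nhds]
      intro t ht
      have e3 := (mapClusterPt_iff_frequently.mp hY t ht).and_eventually (eventually_ge_atTop m)
      obtain ⟨k, hk1, hk2⟩ := e3.exists
      exact ⟨_, hk1, y k, subset_convexHull _ _ ⟨k, hk2, rfl⟩, rfl⟩
    rw [← e1] at e2
    obtain ⟨ψ', hψ', hψ''⟩ := e2
    rw [hψ, ← hψ'']
    simpa using hψ'
  set τ := ε' - ε - 2 * δ with hτ
  have hτ0 : 0 < τ := by rw [hτ, hδ]; linarith
  have happrox : ∀ m : ℕ, ∃ (κ : Type) (_ : Fintype κ) (v : κ → ℝ) (K : κ → ℕ),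
      (∀ i, 0 ≤ v i) ∧ ∑ i, v i = 1 ∧ (∀ i, m ≤ K i) ∧ ‖(∑ i, v i • y (K i)) - ψ‖ < τ := by
    intro m
    obtain ⟨b, hb, hb'⟩ := Metric.mem_closure_iff.mp (hclos m) τ hτ0
    rw [mem_convexHull_iff_exists_fintype] at hb
    obtain ⟨κ, hκ, v, q, hv, hv1, hq, hqz⟩ := hb
    choose K hK using hq
    refine ⟨κ, hκ, v, K, hv, hv1, fun i => (hK i).1, ?_⟩
    have : ∑ i, v i • y (K i) = b := by
      rw [← hqz]
      refine Finset.sum_congr rfl fun i _ => ?_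
      rw [(hK i).2]
    rw [this, ← dist_eq_norm, dist_comm]
    exact hb'
  obtain ⟨κ₁, _, v₁, K₁, hv₁, hv₁1, -, hψ₁⟩ := happrox 0
  set m := Finset.univ.sup K₁ + 1 with hm
  have hK₁ : ∀ i, K₁ i < m := fun i => Nat.lt_succ_of_le (Finset.le_sup (Finset.mem_univ i))
  obtain ⟨κ₂, _, v₂, K₂, hv₂, hv₂1, hmK₂, hψ₂⟩ := happrox m
  set n := max m (Finset.univ.sup K₂ + 1) with hn
  have hK₂ : ∀ i, K₂ i < n := fun i =>
    lt_of_lt_of_le (Nat.lt_succ_of_le (Finset.le_sup (Finset.mem_univ i))) (le_max_right _ _)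
  let s : ℕ → 𝕜 := fun k => if k < m then 1 else -1
  have hs : ∀ k, ‖s k‖ ≤ 1 := by
    intro k
    by_cases hk : k < m
    · simp [s, hk]
    · simp [s, hk]
  set h := glue f s n with hh
  have hh1 : ‖h‖ ≤ 1 := norm_glue_le f hf1 s hs n
  have hval : ∀ k < n, ‖μ (x k).1 h - s k * μ (x k).1 (f k)‖ ≤ δ := fun k hk =>
    (glue_value (μ (x k).1) f hf1 s hs k c (fun j => (hc0 j).le)
      (fun j hj => hx2 k j hj.symm) n hk).trans (hcsum n)
  have hyμ : ∀ k, ‖μ (x k).1 h - y k h‖ ≤ ε := by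
    intro k
    have e1 : μ (x k).1 h - y k h = (μ (x k).1 - φ (x k).1) h := rfl
    rw [e1]
    calc ‖(μ (x k).1 - φ (x k).1) h‖ ≤ ‖μ (x k).1 - φ (x k).1‖ * ‖h‖ :=
          ContinuousLinearMap.le_opNorm _ _
      _ ≤ ε * 1 := by
        gcongr
        · exact (norm_nonneg _).trans (hε (x k).1)
        · exact hε _
      _ = ε := mul_one ε
  have habs : ∀ z : 𝕜, ∀ C : ℝ, ‖z‖ ≤ C → |RCLike.re z| ≤ C := fun z C hz =>
    (RCLike.abs_re_le_norm z).trans hz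
  have hpos : ∀ k < m, τ ≤ RCLike.re (y k h) := by
    intro k hk
    have hkn : k < n := lt_of_lt_of_le hk (le_max_left _ _)
    have e1 := habs _ _ (hval k hkn)
    have e2 := habs _ _ (hyμ k)
    have e3 : s k = 1 := by simp [s, hk]
    rw [e3, one_mul, map_sub, abs_le] at e1
    rw [map_sub, abs_le] at e2
    have e4 := hx1 k
    change ε' - δ ≤ RCLike.re (μ (x k).1 (f k)) at e4
    rw [hτ]
    linarith [e1.1, e2.2]
  have hneg : ∀ k, m ≤ k → k < n → RCLike.re (y k h) ≤ -τ := by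
    intro k hk hkn
    have e1 := habs _ _ (hval k hkn)
    have e2 := habs _ _ (hyμ k)
    have e3 : s k = -1 := by simp [s, not_lt.mpr hk]
    rw [e3, neg_one_mul, map_sub, map_neg, abs_le] at e1
    rw [map_sub, abs_le] at e2
    have e4 := hx1 k
    change ε' - δ ≤ RCLike.re (μ (x k).1 (f k)) at e4
    rw [hτ]
    linarith [e1.2, e2.1]
  have hsum : ∀ {κ : Type} [Fintype κ] (v : κ → ℝ) (K : κ → ℕ),
      RCLike.re ((∑ i, v i • y (K i)) h) = ∑ i, v i * RCLike.re (y (K i) h) := by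
    intro κ _ v K
    rw [sum_apply, map_sum]
    refine Finset.sum_congr rfl fun i _ => ?_
    rw [smul_apply, RCLike.smul_re]
  have hA : τ ≤ RCLike.re ((∑ i, v₁ i • y (K₁ i)) h) := by
    rw [hsum]
    calc τ = ∑ i, v₁ i * τ := by rw [← Finset.sum_mul, hv₁1, one_mul]
      _ ≤ _ := Finset.sum_le_sum fun i _ =>
        mul_le_mul_of_nonneg_left (hpos _ (hK₁ i)) (hv₁ i)
  have hB : RCLike.re ((∑ i, v₂ i • y (K₂ i)) h) ≤ -τ := by
    rw [hsum]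
    calc ∑ i, v₂ i * RCLike.re (y (K₂ i) h) ≤ ∑ i, v₂ i * (-τ) := Finset.sum_le_sum fun i _ =>
          mul_le_mul_of_nonneg_left (hneg _ (hmK₂ i) (hK₂ i)) (hv₂ i)
      _ = -τ := by rw [← Finset.sum_mul, hv₂1, one_mul]
  have hC : ‖(∑ i, v₁ i • y (K₁ i)) - (∑ i, v₂ i • y (K₂ i))‖ < 2 * τ := by
    have e1 : (∑ i, v₁ i • y (K₁ i)) - (∑ i, v₂ i • y (K₂ i)) =
        ((∑ i, v₁ i • y (K₁ i)) - ψ) - ((∑ i, v₂ i • y (K₂ i)) - ψ) := by abel
    rw [e1]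
    calc _ ≤ ‖(∑ i, v₁ i • y (K₁ i)) - ψ‖ + ‖(∑ i, v₂ i • y (K₂ i)) - ψ‖ := norm_sub_le _ _
      _ < τ + τ := add_lt_add hψ₁ hψ₂
      _ = 2 * τ := by ring
  have hD : RCLike.re (((∑ i, v₁ i • y (K₁ i)) - (∑ i, v₂ i • y (K₂ i))) h) ≤
      ‖(∑ i, v₁ i • y (K₁ i)) - (∑ i, v₂ i • y (K₂ i))‖ := by
    calc _ ≤ ‖((∑ i, v₁ i • y (K₁ i)) - (∑ i, v₂ i • y (K₂ i))) h‖ := RCLike.re_le_norm _
      _ ≤ ‖(∑ i, v₁ i • y (K₁ i)) - (∑ i, v₂ i • y (K₂ i))‖ * ‖h‖ :=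
        ContinuousLinearMap.le_opNorm _ _
      _ ≤ ‖(∑ i, v₁ i • y (K₁ i)) - (∑ i, v₂ i • y (K₂ i))‖ * 1 := by gcongr
      _ = _ := mul_one _
  rw [sub_apply, map_sub] at hD
  linarith

end Pool.Agent.WeakEss
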