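import Pool.Agent.WeakEss.Defs

/-!
# Operators on `C(L)` dominated by a positive functional are weakly compact
-/

open Set Filter Topology MeasureTheory
open scoped ENNReal CompactlySupported

namespace Pool.Agent.WeakEss

section factor

variable {𝕜 : Type*} [RCLike 𝕜]

/-- An operator factoring through a Hilbert space is weakly compact. -/
theorem isWeaklyCompact_of_hilbert {E Z H : Type*} [NormedAddCommGroup E] [NormedSpace 𝕜 E]
    [NormedAddCommGroup Z] [NormedSpace 𝕜 Z] [CompleteSpace Z]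
    [NormedAddCommGroup H] [InnerProductSpace 𝕜 H] [CompleteSpace H]
    (R : E →L[𝕜] Z) (J : E →L[𝕜] H) (hJ : DenseRange J) (C : ℝ)
    (h : ∀ x, ‖R x‖ ≤ C * ‖J x‖) : IsWeaklyCompactOperator R := by
  set R' : H →L[𝕜] Z := (R : E →ₗ[𝕜] Z).extendOfNorm (J : E →ₗ[𝕜] H) with hR'
  have hext : ∀ x, R' (J x) = R x := fun x =>
    LinearMap.extendOfNorm_eq (f := (R : E →ₗ[𝕜] Z)) (e := (J : E →ₗ[𝕜] H)) hJ ⟨C, h⟩ x
  have h1 : IsCompact ((WeakSpace.map R') '' ((toWeakSpace 𝕜 H) '' Metric.closedBall (0 : H) ‖J‖)) :=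
    (isCompact_closedBall_hilbert (𝕜 := 𝕜) ‖J‖).image (WeakSpace.map R').continuous
  apply h1.closure_of_subset
  rintro _ ⟨_, ⟨x, hx, rfl⟩, rfl⟩
  refine ⟨toWeakSpace 𝕜 H (J x), ⟨J x, ?_, rfl⟩, ?_⟩
  · rw [Metric.mem_closedBall, dist_zero_right] at hx ⊢
    calc ‖J x‖ ≤ ‖J‖ * ‖x‖ := J.le_opNorm x
      _ ≤ ‖J‖ * 1 := by gcongr
      _ = ‖J‖ := mul_one _
  · change R' (J x) = R x
    exact hext x

variable {L : Type*} [TopologicalSpace L] [CompactSpace L]

/-- The pointwise norm of a continuous function. -/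
def nrm (f : C(L, 𝕜)) : C(L, ℝ) := ⟨fun x => ‖f x‖, by fun_prop⟩

@[simp] theorem nrm_apply (f : C(L, 𝕜)) (x : L) : nrm f x = ‖f x‖ := rfl

/-- Operators dominated by a positive functional are weakly compact. -/
theorem isWeaklyCompact_of_le [T2Space L] {Z : Type*} [NormedAddCommGroup Z] [NormedSpace 𝕜 Z]
    [CompleteSpace Z] (R : C(L, 𝕜) →L[𝕜] Z) (lam : C(L, ℝ) →ₗ[ℝ] ℝ)
    (hlam : ∀ h : C(L, ℝ), 0 ≤ h → 0 ≤ lam h) (hR : ∀ f, ‖R f‖ ≤ lam (nrm f)) :
    IsWeaklyCompactOperator R := by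
  letI : MeasurableSpace L := borel L
  haveI : BorelSpace L := ⟨rfl⟩
  let Lam : C_c(L, ℝ) →ₚ[ℝ] ℝ :=
  { toFun g := lam g.toContinuousMap
    map_add' g g' := by
      have : (g + g').toContinuousMap = g.toContinuousMap + g'.toContinuousMap := rfl
      rw [this, map_add]
    map_smul' c g := by
      have : (c • g).toContinuousMap = c • g.toContinuousMap := rfl
      rw [this, map_smul]
      rfl
    monotone' g g' hgg' := by
      have h1 : 0 ≤ lam (g'.toContinuousMap - g.toContinuousMap) := by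
        apply hlam
        intro x
        have := hgg' x
        simpa using this
      rw [map_sub] at h1
      exact sub_nonneg.mp h1 }
  set m : Measure L := RealRMK.rieszMeasure Lam with hm
  haveI : m.Regular := by rw [hm]; infer_instance
  haveI : IsFiniteMeasure m := by rw [hm]; infer_instance
  have hint : ∀ f : C(L, 𝕜), lam (nrm f) = ∫ x, ‖f x‖ ∂m := by
    intro f
    let g : C_c(L, ℝ) := { toContinuousMap := nrm f
                           hasCompactSupport' := HasCompactSupport.of_compactSpace _ }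
    have := RealRMK.integral_rieszMeasure Lam g
    exact this.symm
  set J : C(L, 𝕜) →L[𝕜] Lp 𝕜 2 m := ContinuousMap.toLp (E := 𝕜) 2 m 𝕜 with hJ
  have hdense : DenseRange J := ContinuousMap.toLp_denseRange 𝕜 m 𝕜 (by norm_num)
  refine isWeaklyCompact_of_hilbert R J hdense ((m univ ^ (1 / 2 : ℝ)).toReal) (fun f => ?_)
  refine (hR f).trans ?_
  rw [hint f]
  have hmeas : AEStronglyMeasurable (fun x => f x) m := f.continuous.aestronglyMeasurable
  have h1 : ∫ x, ‖f x‖ ∂m = (eLpNorm (fun x => f x) 1 m).toReal := by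
    rw [eLpNorm_one_eq_lintegral_enorm, integral_norm_eq_lintegral_enorm hmeas]
  have h2 : ‖J f‖ = (eLpNorm (fun x => f x) 2 m).toReal := by
    rw [hJ, Lp.norm_def]
    congr 1
    exact eLpNorm_congr_ae (ContinuousMap.coeFn_toLp m f)
  rw [h1, h2, ← ENNReal.toReal_mul]
  have h3 := eLpNorm_le_eLpNorm_mul_rpow_measure_univ (p := 1) (q := 2) (by norm_num) hmeas
  have h4 : (1 / (1 : ℝ≥0∞).toReal - 1 / (2 : ℝ≥0∞).toReal) = (1 / 2 : ℝ) := by norm_num
  rw [h4] at h3
  rw [mul_comm]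
  apply ENNReal.toReal_mono _ h3
  apply ENNReal.mul_ne_top
  · have : MemLp (fun x => f x) 2 m := by
      have h5 := Lp.memLp (J f)
      exact (memLp_congr_ae (ContinuousMap.coeFn_toLp m f)).mp h5
    exact this.2.ne
  · exact ENNReal.rpow_ne_top_of_nonneg (by norm_num) (measure_ne_top _ _)

end factor

end Pool.Agent.WeakEss
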