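import Pool.Agent.WeakEss.Selection

/-!
# The selection
-/

set_option linter.unusedSectionVars false

open Set Filter Topology

namespace Pool.Agent.WeakEss

variable {L : Type*} [TopologicalSpace L] [CompactSpace L]
variable {K : Type*} [TopologicalSpace K]

section michael

variable {lam : C(L, ℝ) →ₗ[ℝ] ℝ}

/-- The values of the set-valued map. -/
def Sv (lam : C(L, ℝ) →ₗ[ℝ] ℝ) (r : ℝ) (F : WeakDual ℝ C(L, ℝ)) : Set (WeakDual ℝ C(L, ℝ)) :=
  {H | H ∈ OI lam ∧ ∀ f, H f - F f ≤ r * ‖f‖}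

theorem convex_Sv (lam : C(L, ℝ) →ₗ[ℝ] ℝ) (r : ℝ) (F : WeakDual ℝ C(L, ℝ)) :
    Convex ℝ (Sv lam r F) := by
  intro G hG H hH a b ha hb hab
  refine ⟨convex_OI lam hG.1 hH.1 ha hb hab, fun f => ?_⟩
  have h1 : (a • G + b • H) f = a * G f + b * H f := rfl
  rw [h1]
  have e1 := mul_le_mul_of_nonneg_left (hG.2 f) ha
  have e2 := mul_le_mul_of_nonneg_left (hH.2 f) hb
  have e3 : F f = a * F f + b * F f := by rw [← add_mul, hab, one_mul]
  have e4 : r * ‖f‖ = a * (r * ‖f‖) + b * (r * ‖f‖) := by rw [← add_mul, hab, one_mul]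
  rw [e4]
  linarith

/-- `G` and `H` are `r`-close on the first `n` members of the sequence. -/
def Near (e : ℕ → C(L, ℝ)) (r : ℝ) (n : ℕ) (G H : WeakDual ℝ C(L, ℝ)) : Prop :=
  ∀ j < n, |G (e j) - H (e j)| ≤ r

theorem Near.convex {e : ℕ → C(L, ℝ)} {r : ℝ} {n : ℕ} {G₁ G₂ H₁ H₂ : WeakDual ℝ C(L, ℝ)}
    (h₁ : Near e r n G₁ H₁) (h₂ : Near e r n G₂ H₂) {a b : ℝ} (ha : 0 ≤ a) (hb : 0 ≤ b)
    (hab : a + b = 1) : Near e r n (a • G₁ + b • G₂) (a • H₁ + b • H₂) := by
  intro j hj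
  have h3 : (a • G₁ + b • G₂) (e j) = a * G₁ (e j) + b * G₂ (e j) := rfl
  have h4 : (a • H₁ + b • H₂) (e j) = a * H₁ (e j) + b * H₂ (e j) := rfl
  rw [h3, h4]
  have e1 := h₁ j hj
  have e2 := h₂ j hj
  calc |a * G₁ (e j) + b * G₂ (e j) - (a * H₁ (e j) + b * H₂ (e j))|
      = |a * (G₁ (e j) - H₁ (e j)) + b * (G₂ (e j) - H₂ (e j))| := by congr 1; ring
    _ ≤ |a * (G₁ (e j) - H₁ (e j))| + |b * (G₂ (e j) - H₂ (e j))| := abs_add_le _ _
    _ = a * |G₁ (e j) - H₁ (e j)| + b * |G₂ (e j) - H₂ (e j)| := by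
      rw [abs_mul, abs_mul, abs_of_nonneg ha, abs_of_nonneg hb]
    _ ≤ a * r + b * r := by gcongr
    _ = r := by rw [← add_mul, hab, one_mul]

variable (hlam : Pos lam) (μ : K → (C(L, ℝ) →L[ℝ] ℝ)) (hμ : ∀ f, Continuous (fun t => μ t f))
    {ε : ℝ} (hε : ∀ t, defect lam (μ t) ≤ ε) (F : K → WeakDual ℝ C(L, ℝ))
    (hF : ∀ t, F t ∈ OI lam)
    (hFμ : ∀ t f, μ t f - F t f ≤ defect lam (μ t) * ‖f‖) {η : ℝ} (hη : 0 < η)

include hlam hμ hε hF hFμ hη

/-- One step of the construction. -/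
theorem step [NormalSpace K] [ParacompactSpace K] (e : ℕ → C(L, ℝ)) (n : ℕ)
    (g : C(K, WeakDual ℝ C(L, ℝ)))
    (hg : ∀ t, g t ∈ OI lam ∧ ∃ H ∈ Sv lam (defect lam (μ t) + η) (F t),
      Near e ((1 / 2) ^ n) n H (g t)) :
    ∃ g' : C(K, WeakDual ℝ C(L, ℝ)), ∀ t, (g' t ∈ OI lam ∧
      ∃ H ∈ Sv lam (defect lam (μ t) + η) (F t), Near e ((1 / 2) ^ (n + 1)) (n + 1) H (g' t)) ∧
      Near e (2 * (1 / 2) ^ n) n (g' t) (g t) := by
  apply exists_continuous_forall_mem_convex_of_local_const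
    (t := fun t => {G | (G ∈ OI lam ∧
      ∃ H ∈ Sv lam (defect lam (μ t) + η) (F t), Near e ((1 / 2) ^ (n + 1)) (n + 1) H G) ∧
      Near e (2 * (1 / 2) ^ n) n G (g t)})
  · rintro t G₁ ⟨⟨hG₁, H₁, hH₁, hn₁⟩, hm₁⟩ G₂ ⟨⟨hG₂, H₂, hH₂, hn₂⟩, hm₂⟩ a b ha hb hab
    refine ⟨⟨convex_OI lam hG₁ hG₂ ha hb hab, a • H₁ + b • H₂,
      convex_Sv lam _ _ hH₁ hH₂ ha hb hab, hn₁.convex hn₂ ha hb hab⟩, ?_⟩
    have := hm₁.convex hm₂ ha hb hab
    rwa [← add_smul, hab, one_smul] at this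
  · intro t
    obtain ⟨-, H₀, hH₀, hnear⟩ := hg t
    refine ⟨H₀, ?_⟩
    have h1 := lsc hlam μ hμ hε F hF hFμ hη t hH₀.1 hH₀.2 (fun j : Fin (n + 1) => e j)
      (ρ := (1 / 2) ^ (n + 1)) (by positivity)
    have h2 : ∀ᶠ s in 𝓝 t, Near e (2 * (1 / 2) ^ n) n H₀ (g s) := by
      have h3 : ∀ j ∈ Finset.range n, ∀ᶠ s in 𝓝 t, |H₀ (e j) - g s (e j)| < 2 * (1 / 2) ^ n := by
        intro j hj
        have hcont : Continuous (fun s => |H₀ (e j) - g s (e j)|) :=
          (continuous_const.sub ((WeakDual.eval_continuous (e j)).comp g.continuous)).abs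
        have hlt : |H₀ (e j) - g t (e j)| < 2 * (1 / 2) ^ n := by
          refine lt_of_le_of_lt (hnear j (Finset.mem_range.mp hj)) ?_
          have : (0 : ℝ) < (1 / 2) ^ n := by positivity
          linarith
        exact (hcont.tendsto t).eventually_lt_const hlt
      have h4 := (Filter.eventually_all_finset (Finset.range n)).mpr h3
      filter_upwards [h4] with s hs j hj
      exact (hs j (Finset.mem_range.mpr hj)).le
    filter_upwards [h1, h2] with s hs1 hs2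
    obtain ⟨H, hH1, hH2, hH3⟩ := hs1
    exact ⟨⟨hH₀.1, H, ⟨hH1, hH2⟩, fun j hj => hH3 ⟨j, hj⟩⟩, hs2⟩

/-- The selection theorem. -/
theorem exists_selection [NormalSpace K] [ParacompactSpace K]
    [TopologicalSpace.SeparableSpace C(L, ℝ)] :
    ∃ G : K → WeakDual ℝ C(L, ℝ), (∀ t, G t ∈ OI lam) ∧
      (∀ t f, G t f - F t f ≤ (defect lam (μ t) + η) * ‖f‖) ∧
      ∀ f, Continuous (fun t => G t f) := by
  obtain ⟨e, he⟩ := TopologicalSpace.exists_dense_seq C(L, ℝ)
  -- the approximations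
  let P : ℕ → C(K, WeakDual ℝ C(L, ℝ)) → Prop := fun n g =>
    ∀ t, g t ∈ OI lam ∧ ∃ H ∈ Sv lam (defect lam (μ t) + η) (F t), Near e ((1 / 2) ^ n) n H (g t)
  have h0 : P 0 0 := by
    intro t
    refine ⟨?_, F t, ⟨hF t, fun f => ?_⟩, fun j hj => absurd hj (Nat.not_lt_zero j)⟩
    · intro f
      have : ((0 : C(K, WeakDual ℝ C(L, ℝ))) t) f = 0 := rfl
      rw [this, abs_zero]
      exact hlam.abs_nonneg' f
    · rw [sub_self]
      have := defect_nonneg hlam (μ t)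
      positivity
  have hstep : ∀ n (g : {g // P n g}), ∃ g' : {g // P (n + 1) g}, ∀ t,
      Near e (2 * (1 / 2) ^ n) n (g'.1 t) (g.1 t) := by
    rintro n ⟨g, hg⟩
    obtain ⟨g', hg'⟩ := step hlam μ hμ hε F hF hFμ hη e n g hg
    exact ⟨⟨g', fun t => (hg' t).1⟩, fun t => (hg' t).2⟩
  choose nxt hnxt using hstep
  let gs : (n : ℕ) → {g // P n g} := fun n => Nat.rec ⟨0, h0⟩ (fun n g => nxt n g) n
  have hgs : ∀ n t, Near e (2 * (1 / 2) ^ n) n ((gs (n + 1)).1 t) ((gs n).1 t) :=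
    fun n t => hnxt n (gs n) t
  -- Cauchy property
  have hcauchy : ∀ j n, j < n → ∀ m, n ≤ m → ∀ t,
      |(gs m).1 t (e j) - (gs n).1 t (e j)| ≤ 4 * (1 / 2) ^ n - 4 * (1 / 2) ^ m := by
    intro j n hjn m hnm t
    induction m, hnm using Nat.le_induction with
    | base => simp
    | succ m hm ih =>
      have h1 := hgs m t j (by omega)
      calc |(gs (m + 1)).1 t (e j) - (gs n).1 t (e j)|
          = |((gs (m + 1)).1 t (e j) - (gs m).1 t (e j))
            + ((gs m).1 t (e j) - (gs n).1 t (e j))| := by congr 1; ring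
        _ ≤ |(gs (m + 1)).1 t (e j) - (gs m).1 t (e j)|
            + |(gs m).1 t (e j) - (gs n).1 t (e j)| := abs_add_le _ _
        _ ≤ 2 * (1 / 2) ^ m + (4 * (1 / 2) ^ n - 4 * (1 / 2) ^ m) := by gcongr
        _ = 4 * (1 / 2) ^ n - 4 * (1 / 2) ^ (m + 1) := by rw [pow_succ]; ring
  -- limit along an ultrafilter
  let 𝒱 : Ultrafilter ℕ := Filter.hyperfilter ℕ
  have h𝒱 : (𝒱 : Filter ℕ) ≤ atTop := Nat.hyperfilter_le_atTop
  have hlim : ∀ t, ∃ G ∈ OI lam, Tendsto (fun n => (gs n).1 t) 𝒱 (𝓝 G) := by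
    intro t
    obtain ⟨G, hG1, hG2⟩ := (isCompact_OI hlam).ultrafilter_le_nhds
      (𝒱.map (fun n => (gs n).1 t))
      (by
        rw [Ultrafilter.coe_map, le_principal_iff, Filter.mem_map]
        exact Filter.Eventually.of_forall (fun n => ((gs n).2 t).1))
    exact ⟨G, hG1, hG2⟩
  choose G hG1 hG2 using hlim
  have hGe : ∀ t f, Tendsto (fun n => (gs n).1 t f) 𝒱 (𝓝 (G t f)) := fun t f =>
    ((WeakDual.eval_continuous f).tendsto (G t)).comp (hG2 t)
  have hunif : ∀ j n, j < n → ∀ t, |G t (e j) - (gs n).1 t (e j)| ≤ 4 * (1 / 2) ^ n := by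
    intro j n hjn t
    have e1 : Tendsto (fun m => |(gs m).1 t (e j) - (gs n).1 t (e j)|) 𝒱
        (𝓝 |G t (e j) - (gs n).1 t (e j)|) := ((hGe t (e j)).sub_const _).abs
    apply le_of_tendsto e1
    have : ∀ᶠ m in (𝒱 : Filter ℕ), n ≤ m := h𝒱 (eventually_ge_atTop n)
    filter_upwards [this] with m hm
    have h1 := hcauchy j n hjn m hm t
    have h2 : (0 : ℝ) < (1 / 2) ^ m := by positivity
    linarith
  have hpow : Tendsto (fun n : ℕ => 4 * (1 / 2 : ℝ) ^ n) atTop (𝓝 0) := by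
    have := (tendsto_pow_atTop_nhds_zero_of_lt_one (r := (1 / 2 : ℝ)) (by norm_num)
      (by norm_num)).const_mul 4
    rwa [mul_zero] at this
  have hconte : ∀ j, Continuous (fun t => G t (e j)) := by
    intro j
    have hu : TendstoUniformly (fun n t => (gs n).1 t (e j)) (fun t => G t (e j)) atTop := by
      rw [Metric.tendstoUniformly_iff]
      intro δ hδ
      filter_upwards [hpow.eventually_lt_const hδ, eventually_gt_atTop j] with n hn hjn t
      rw [Real.dist_eq]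
      exact lt_of_le_of_lt (hunif j n hjn t) hn
    exact hu.continuous (Filter.Frequently.of_forall (fun n =>
      (WeakDual.eval_continuous (e j)).comp (gs n).1.continuous))
  have hcontf : ∀ f, Continuous (fun t => G t f) := by
    intro f
    obtain ⟨u, hu, hulim⟩ := mem_closure_iff_seq_limit.mp (he f)
    choose j hj using hu
    have huc : TendstoUniformly (fun n t => G t (u n)) (fun t => G t f) atTop := by
      rw [Metric.tendstoUniformly_iff]
      intro δ hδ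
      have h1 : Tendsto (fun n => lam 1 * ‖f - u n‖) atTop (𝓝 0) := by
        have := (tendsto_iff_norm_sub_tendsto_zero.mp hulim).const_mul (lam 1)
        rw [mul_zero] at this
        refine this.congr (fun n => ?_)
        rw [norm_sub_rev]
      filter_upwards [h1.eventually_lt_const hδ] with n hn t
      rw [Real.dist_eq, ← map_sub]
      exact lt_of_le_of_lt (OI_bound hlam (hG1 t) _) hn
    refine huc.continuous (Filter.Frequently.of_forall (fun n => ?_))
    rw [← hj n]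
    exact hconte (j n)
  refine ⟨G, hG1, fun t f => ?_, hcontf⟩
  -- norm estimate, first on the dense sequence
  have hdense : ∀ j, G t (e j) - F t (e j) ≤ (defect lam (μ t) + η) * ‖e j‖ := by
    intro j
    have e1 : Tendsto (fun n => (gs n).1 t (e j) - F t (e j) - (1 / 2 : ℝ) ^ n) 𝒱
        (𝓝 (G t (e j) - F t (e j) - 0)) := by
      apply ((hGe t (e j)).sub_const _).sub
      exact (tendsto_pow_atTop_nhds_zero_of_lt_one (by norm_num) (by norm_num)).mono_left h𝒱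
    rw [sub_zero] at e1
    apply le_of_tendsto e1
    have : ∀ᶠ n in (𝒱 : Filter ℕ), j < n := h𝒱 (eventually_gt_atTop j)
    filter_upwards [this] with n hn
    obtain ⟨-, H, hH, hnear⟩ := (gs n).2 t
    have h1 := hnear j hn
    have h2 := hH.2 (e j)
    rw [abs_le] at h1
    linarith [h1.1]
  have hclosed : IsClosed {f | G t f - F t f ≤ (defect lam (μ t) + η) * ‖f‖} :=
    isClosed_le (((G t : C(L, ℝ) →L[ℝ] ℝ).continuous).sub ((F t : C(L, ℝ) →L[ℝ] ℝ).continuous))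
      (continuous_const.mul continuous_norm)
  have : closure (range e) ⊆ {f | G t f - F t f ≤ (defect lam (μ t) + η) * ‖f‖} :=
    closure_minimal (by rintro _ ⟨j, rfl⟩; exact hdense j) hclosed
  exact this (he f)

end michael

/-- **Approximation by dominated operators.** -/
theorem exists_dominated [CompactSpace K] [T2Space K] [TopologicalSpace.SeparableSpace C(L, ℝ)]
    (lam : C(L, ℝ) →ₗ[ℝ] ℝ) (hlam : Pos lam) (T : C(L, ℝ) →L[ℝ] C(K, ℝ)) {ε : ℝ} (hε : 0 ≤ ε)
    (hT : ∀ f t, T f t ≤ lam |f| + ε * ‖f‖) {η : ℝ} (hη : 0 < η) :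
    ∃ R : C(L, ℝ) →L[ℝ] C(K, ℝ), (∀ f t, |R f t| ≤ lam |f|) ∧
      ∀ f, ‖T f - R f‖ ≤ (2 * ε + η) * ‖f‖ := by
  let μ : K → (C(L, ℝ) →L[ℝ] ℝ) := fun t => (ContinuousMap.evalCLM ℝ t).comp T
  have hμapp : ∀ t f, μ t f = T f t := fun t f => rfl
  have hμ : ∀ f, Continuous (fun t => μ t f) := fun f => (T f).continuous
  have hdef : ∀ t, defect lam (μ t) ≤ ε := fun t => defect_le hlam (μ t) hε (fun f => hT f t)
  choose F hF hFμ using fun t => exists_nearest hlam (μ t)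
  obtain ⟨G, hG1, hG2, hG3⟩ := exists_selection hlam μ hμ hdef F hF hFμ hη
  let R₀ : C(L, ℝ) →ₗ[ℝ] C(K, ℝ) :=
    { toFun := fun f => ⟨fun t => G t f, hG3 f⟩
      map_add' := by
        intro f g
        ext t
        exact map_add (G t) f g
      map_smul' := by
        intro c f
        ext t
        exact map_smul (G t) c f }
  let R : C(L, ℝ) →L[ℝ] C(K, ℝ) := R₀.mkContinuous (lam 1) (by
    intro f
    rw [ContinuousMap.norm_le _ (mul_nonneg hlam.one_nonneg (norm_nonneg f))]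
    intro t
    exact OI_bound hlam (hG1 t) f)
  have hR : ∀ f t, R f t = G t f := fun f t => rfl
  refine ⟨R, fun f t => by rw [hR]; exact hG1 t f, fun f => ?_⟩
  rw [ContinuousMap.norm_le _ (by positivity)]
  intro t
  have key : ∀ f, T f t - G t f ≤ (2 * ε + η) * ‖f‖ := by
    intro f
    have h1 := hFμ t f
    have h2 := hG2 t (-f)
    rw [map_neg, map_neg, norm_neg] at h2
    rw [hμapp] at h1
    have h3 := hdef t
    have h4 := norm_nonneg f
    nlinarith
  have e1 : (T f - R f) t = T f t - G t f := rfl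
  rw [e1, Real.norm_eq_abs, abs_le]
  constructor
  · have := key (-f)
    rw [map_neg, map_neg, norm_neg] at this
    have e2 : (-(T f)) t = -(T f t) := rfl
    rw [e2] at this
    linarith
  · exact key f

end Pool.Agent.WeakEss
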