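import Pool.Agent.WeakEss.Domination
import Pool.Agent.WeakEss.Michael

/-!
# The weak essential norm of an operator is controlled by that of its adjoint
-/

set_option linter.unusedSectionVars false

open Set Filter Topology

namespace Pool.Agent.WeakEss

variable {𝕜 : Type*} [RCLike 𝕜]

section general

variable {E F : Type*} [NormedAddCommGroup E] [NormedSpace 𝕜 E]
  [NormedAddCommGroup F] [NormedSpace 𝕜 F]

theorem isWeaklyCompactOperator_zero : IsWeaklyCompactOperator (0 : E →L[𝕜] F) := by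
  have h : IsCompact ({toWeakSpace 𝕜 F 0} : Set (WeakSpace 𝕜 F)) := isCompact_singleton
  apply h.closure_of_subset
  rintro _ ⟨_, ⟨x, hx, rfl⟩, rfl⟩
  rfl

theorem weakEssNorm_le {T W : E →L[𝕜] F} (hW : IsWeaklyCompactOperator W) :
    weakEssNorm T ≤ ‖T - W‖ := by
  apply csInf_le
  · refine ⟨0, ?_⟩
    rintro _ ⟨W, -, rfl⟩
    exact norm_nonneg _
  · exact ⟨W, hW, rfl⟩

theorem weakEssNorm_nonneg (T : E →L[𝕜] F) : 0 ≤ weakEssNorm T := by
  apply Real.sInf_nonneg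
  rintro _ ⟨W, -, rfl⟩
  exact norm_nonneg _

theorem exists_of_weakEssNorm_lt {T : E →L[𝕜] F} {r : ℝ} (h : weakEssNorm T < r) :
    ∃ W : E →L[𝕜] F, IsWeaklyCompactOperator W ∧ ‖T - W‖ < r := by
  obtain ⟨_, ⟨W, hW, rfl⟩, hr⟩ := exists_lt_of_csInf_lt
    (⟨_, 0, isWeaklyCompactOperator_zero, rfl⟩ :
      {r : ℝ | ∃ W : E →L[𝕜] F, IsWeaklyCompactOperator W ∧ r = ‖T - W‖}.Nonempty) h
  exact ⟨W, hW, hr⟩

end general

variable {K L : Type*} [TopologicalSpace K] [CompactSpace K] [TopologicalSpace L] [CompactSpace L]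

/-- The real part of a continuous function. -/
noncomputable def reC (X : Type*) [TopologicalSpace X] [CompactSpace X] :
    C(X, 𝕜) →L[ℝ] C(X, ℝ) := (RCLike.reCLM (K := 𝕜)).compLeftContinuous ℝ X

/-- The imaginary part of a continuous function. -/
noncomputable def imC (X : Type*) [TopologicalSpace X] [CompactSpace X] :
    C(X, 𝕜) →L[ℝ] C(X, ℝ) := (RCLike.imCLM (K := 𝕜)).compLeftContinuous ℝ X

/-- A real function as a scalar function. -/
noncomputable def ofC (X : Type*) [TopologicalSpace X] [CompactSpace X] :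
    C(X, ℝ) →L[ℝ] C(X, 𝕜) := (RCLike.ofRealCLM (K := 𝕜)).compLeftContinuous ℝ X

@[simp] theorem reC_apply (f : C(K, 𝕜)) (t : K) : reC K f t = RCLike.re (f t) := rfl
@[simp] theorem imC_apply (f : C(K, 𝕜)) (t : K) : imC K f t = RCLike.im (f t) := rfl
@[simp] theorem ofC_apply (f : C(K, ℝ)) (t : K) : ofC (𝕜 := 𝕜) K f t = ((f t : ℝ) : 𝕜) := rfl

/-- Rotation to a real value. -/
theorem exists_rot (E : C(L, 𝕜) →ₗ[𝕜] C(K, 𝕜)) (f : C(L, 𝕜)) (t : K) :
    ∃ θ : 𝕜, ‖θ‖ = 1 ∧ ‖E f t‖ = RCLike.re (E (θ • f) t) := by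
  obtain ⟨θ, hθ1, hθ2⟩ := RCLike.exists_norm_eq_mul_self (E f t)
  refine ⟨θ, hθ1, ?_⟩
  rw [E.map_smul]
  change ‖E f t‖ = RCLike.re (θ * E f t)
  rw [← hθ2, RCLike.ofReal_re]

/-- The complex operator with given real and imaginary parts on real functions. -/
noncomputable def cplx (R₁ R₂ : C(L, ℝ) →L[ℝ] C(K, ℝ)) : C(L, 𝕜) →ₗ[𝕜] C(K, 𝕜) where
  toFun f := ofC K (R₁ (reC L f) - R₂ (imC L f)) + (RCLike.I : 𝕜) •
    ofC K (R₂ (reC L f) + R₁ (imC L f))
  map_add' f g := by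
    simp only [map_add, map_sub]
    ext t
    simp only [ContinuousMap.add_apply, ContinuousMap.sub_apply, ContinuousMap.smul_apply,
      smul_eq_mul]
    ring
  map_smul' c f := by
    have e1 : reC L (c • f) = RCLike.re c • reC L f - RCLike.im c • imC L f := by
      ext x
      simp
    have e2 : imC L (c • f) = RCLike.re c • imC L f + RCLike.im c • reC L f := by
      ext x
      simp
    rw [e1, e2]
    simp only [map_add, map_sub, R₁.map_smul, R₂.map_smul]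
    ext t
    simp only [RingHom.id_apply, ContinuousMap.add_apply, ContinuousMap.sub_apply,
      ContinuousMap.smul_apply, smul_eq_mul, ofC_apply, RCLike.ofReal_mul]
    have hc : c = (RCLike.re c : 𝕜) + (RCLike.im c : 𝕜) * RCLike.I := (RCLike.re_add_im c).symm
    set A : 𝕜 := ((R₁ (reC L f) t : ℝ) : 𝕜)
    set B : 𝕜 := ((R₁ (imC L f) t : ℝ) : 𝕜)
    set C : 𝕜 := ((R₂ (reC L f) t : ℝ) : 𝕜)
    set D : 𝕜 := ((R₂ (imC L f) t : ℝ) : 𝕜)
    set a : 𝕜 := (RCLike.re c : 𝕜)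
    set b : 𝕜 := (RCLike.im c : 𝕜) with hb
    rw [hc]
    rcases RCLike.I_mul_I (K := 𝕜) with hI | hI
    · have hb0 : b = 0 := by
        rw [hb, RCLike.im_eq_zero hI, RCLike.ofReal_zero]
      rw [hI, hb0]
      ring
    · linear_combination (-b * (B + C)) * hI

theorem cplx_apply (R₁ R₂ : C(L, ℝ) →L[ℝ] C(K, ℝ)) (f : C(L, 𝕜)) (t : K) :
    cplx R₁ R₂ f t = (((R₁ (reC L f) t - R₂ (imC L f) t : ℝ) : 𝕜)) + RCLike.I *
      (((R₂ (reC L f) t + R₁ (imC L f) t : ℝ) : 𝕜)) := rfl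

theorem re_cplx (R₁ R₂ : C(L, ℝ) →L[ℝ] C(K, ℝ)) (f : C(L, 𝕜)) (t : K) :
    RCLike.re (cplx R₁ R₂ f t) = R₁ (reC L f) t - R₂ (imC L f) t := by
  rw [cplx_apply, map_add, RCLike.ofReal_re, RCLike.I_mul_re, RCLike.ofReal_im, neg_zero, add_zero]

/-- The real part of `T` on real functions. -/
noncomputable def rePart (T : C(L, 𝕜) →L[𝕜] C(K, 𝕜)) : C(L, ℝ) →L[ℝ] C(K, ℝ) :=
  (reC K).comp ((T.restrictScalars ℝ).comp (ofC L))

/-- The imaginary part of `T` on real functions. -/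
noncomputable def imPart (T : C(L, 𝕜) →L[𝕜] C(K, 𝕜)) : C(L, ℝ) →L[ℝ] C(K, ℝ) :=
  (imC K).comp ((T.restrictScalars ℝ).comp (ofC L))

theorem rePart_apply (T : C(L, 𝕜) →L[𝕜] C(K, 𝕜)) (f : C(L, ℝ)) (t : K) :
    rePart T f t = RCLike.re (T (ofC L f) t) := rfl

theorem imPart_apply (T : C(L, 𝕜) →L[𝕜] C(K, 𝕜)) (f : C(L, ℝ)) (t : K) :
    imPart T f t = RCLike.im (T (ofC L f) t) := rfl

theorem re_eq_parts (T : C(L, 𝕜) →L[𝕜] C(K, 𝕜)) (f : C(L, 𝕜)) (t : K) :
    RCLike.re (T f t) = rePart T (reC L f) t - imPart T (imC L f) t := by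
  have h1 : f = ofC L (reC L f) + (RCLike.I : 𝕜) • ofC L (imC L f) := by
    ext x
    simp only [ContinuousMap.add_apply, ContinuousMap.smul_apply, ofC_apply, reC_apply, imC_apply,
      smul_eq_mul]
    conv_lhs => rw [← RCLike.re_add_im (f x)]
    ring
  conv_lhs => rw [h1]
  rw [T.map_add, T.map_smul, ContinuousMap.add_apply, ContinuousMap.smul_apply, smul_eq_mul,
    map_add, RCLike.I_mul_re, rePart_apply, imPart_apply]
  ring

theorem norm_ofC_le (f : C(L, ℝ)) : ‖ofC (𝕜 := 𝕜) L f‖ ≤ ‖f‖ := by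
  rw [ContinuousMap.norm_le _ (norm_nonneg _)]
  intro x
  rw [ofC_apply, RCLike.norm_ofReal]
  exact f.norm_coe_le_norm x

theorem norm_reC_le (f : C(L, 𝕜)) : ‖reC L f‖ ≤ ‖f‖ := by
  rw [ContinuousMap.norm_le _ (norm_nonneg _)]
  intro x
  rw [reC_apply]
  exact (RCLike.abs_re_le_norm _).trans (f.norm_coe_le_norm x)

theorem norm_imC_le (f : C(L, 𝕜)) : ‖imC L f‖ ≤ ‖f‖ := by
  rw [ContinuousMap.norm_le _ (norm_nonneg _)]
  intro x
  rw [imC_apply]
  exact (RCLike.abs_im_le_norm _).trans (f.norm_coe_le_norm x)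

theorem nrm_ofC (f : C(L, ℝ)) : nrm (ofC (𝕜 := 𝕜) L f) = |f| := by
  ext x
  rw [nrm_apply, ofC_apply, RCLike.norm_ofReal]
  rfl

theorem mono_of_pos {lam : C(L, ℝ) →ₗ[ℝ] ℝ} (hlam : Pos lam) {g h : C(L, ℝ)} (hgh : g ≤ h) :
    lam g ≤ lam h := by
  have := hlam (h - g) (sub_nonneg.mpr hgh)
  rw [map_sub] at this
  linarith

/-- The main inequality. -/
theorem weakEssNorm_le_adjoint [T2Space K] [T2Space L] [TopologicalSpace.SeparableSpace C(L, ℝ)]
    (T : C(L, 𝕜) →L[𝕜] C(K, 𝕜)) : weakEssNorm T ≤ 4 * weakEssNorm (adjointOp T) := by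
  rcases isEmpty_or_nonempty K with hK | hK
  · have h1 : T = 0 := by
      ext f t
      exact (IsEmpty.false t).elim
    have h2 : weakEssNorm T ≤ ‖T - 0‖ := weakEssNorm_le isWeaklyCompactOperator_zero
    rw [h1, sub_zero, norm_zero] at h2
    rw [h1]
    exact h2.trans (by
      have := weakEssNorm_nonneg (adjointOp (0 : C(L, 𝕜) →L[𝕜] C(K, 𝕜)))
      linarith)
  apply le_of_forall_pos_le_add
  intro η hη
  set ε := weakEssNorm (adjointOp T) + η / 16 with hε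
  have hε0 : 0 < ε := by
    have := weakEssNorm_nonneg (adjointOp T)
    rw [hε]; linarith
  obtain ⟨S, hS, hTS⟩ := exists_of_weakEssNorm_lt
    (show weakEssNorm (adjointOp T) < ε by rw [hε]; linarith)
  -- the functionals
  let dl : K → StrongDual 𝕜 C(K, 𝕜) := fun t => ContinuousMap.evalCLM 𝕜 t
  have hdl : ∀ t, ‖dl t‖ ≤ 1 := by
    intro t
    apply ContinuousLinearMap.opNorm_le_bound _ zero_le_one
    intro f
    rw [one_mul]
    exact f.norm_coe_le_norm t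
  set ε' := ε + η / 16 with hε'
  have hcpt : IsCompact (closure (toWeakSpace 𝕜 (StrongDual 𝕜 C(L, 𝕜)) ''
      range (fun t => S (dl t)))) := by
    apply hS.of_isClosed_subset isClosed_closure
    apply closure_mono
    rintro _ ⟨_, ⟨t, rfl⟩, rfl⟩
    exact ⟨S (dl t), ⟨dl t, mem_closedBall_zero_iff.mpr (hdl t), rfl⟩, rfl⟩
  obtain ⟨lam, hlam, hdom⟩ := exists_lam (fun t => adjointOp T (dl t)) (fun t => S (dl t))
    (M := ‖adjointOp T‖) (ε := ε) (ε' := ε')
    (fun t => by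
      calc ‖adjointOp T (dl t)‖ ≤ ‖adjointOp T‖ * ‖dl t‖ := ContinuousLinearMap.le_opNorm _ _
        _ ≤ ‖adjointOp T‖ * 1 := by
          gcongr
          exact hdl t
        _ = ‖adjointOp T‖ := mul_one _)
    (fun t => by
      calc ‖adjointOp T (dl t) - S (dl t)‖ = ‖(adjointOp T - S) (dl t)‖ := rfl
        _ ≤ ‖adjointOp T - S‖ * ‖dl t‖ := ContinuousLinearMap.le_opNorm _ _
        _ ≤ ε * 1 := by
          gcongr
          exact hdl t
        _ = ε := mul_one _)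
    hcpt (by rw [hε']; linarith)
  have hdom' : ∀ t (f : C(L, 𝕜)), ‖T f t‖ ≤ lam (nrm f) + ε' * ‖f‖ := hdom
  have hε'0 : 0 ≤ ε' := by rw [hε']; positivity
  have hdomR : ∀ t (g : C(L, ℝ)), ‖T (ofC L g) t‖ ≤ lam |g| + ε' * ‖g‖ := by
    intro t g
    refine (hdom' t _).trans ?_
    rw [nrm_ofC]
    gcongr
    exact norm_ofC_le g
  obtain ⟨R₁, hR₁, hR₁'⟩ := exists_dominated lam hlam (rePart T) hε'0
    (fun f t => by
      rw [rePart_apply]
      exact (RCLike.re_le_norm _).trans (hdomR t f)) (show 0 < η / 8 by positivity)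
  obtain ⟨R₂, hR₂, hR₂'⟩ := exists_dominated lam hlam (imPart T) hε'0
    (fun f t => by
      rw [imPart_apply]
      exact (RCLike.im_le_norm _).trans (hdomR t f)) (show 0 < η / 8 by positivity)
  -- the dominated operator
  have hRbound : ∀ (f : C(L, 𝕜)) (t : K), ‖cplx R₁ R₂ f t‖ ≤ 2 * lam (nrm f) := by
    intro f t
    obtain ⟨θ, hθ1, hθ2⟩ := exists_rot (cplx R₁ R₂) f t
    rw [hθ2, re_cplx]
    have e1 := (abs_le.mp (hR₁ (reC L (θ • f)) t)).2
    have e2 := (abs_le.mp (hR₂ (imC L (θ • f)) t)).1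
    have e3 : lam |reC L (θ • f)| ≤ lam (nrm f) := by
      apply mono_of_pos hlam
      intro x
      change |RCLike.re (θ * f x)| ≤ ‖f x‖
      refine (RCLike.abs_re_le_norm _).trans ?_
      rw [norm_mul, hθ1, one_mul]
    have e4 : lam |imC L (θ • f)| ≤ lam (nrm f) := by
      apply mono_of_pos hlam
      intro x
      change |RCLike.im (θ * f x)| ≤ ‖f x‖
      refine (RCLike.abs_im_le_norm _).trans ?_
      rw [norm_mul, hθ1, one_mul]
    linarith
  have hlamnn : ∀ f : C(L, 𝕜), 0 ≤ lam (nrm f) := fun f => hlam _ (nrm_nonneg f)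
  have hlam1 : ∀ f : C(L, 𝕜), lam (nrm f) ≤ lam 1 * ‖f‖ := by
    intro f
    have e1 : nrm f ≤ ‖f‖ • (1 : C(L, ℝ)) := by
      intro x
      change ‖f x‖ ≤ ‖f‖ * 1
      rw [mul_one]
      exact f.norm_coe_le_norm x
    have e2 := mono_of_pos hlam e1
    rw [map_smul, smul_eq_mul] at e2
    linarith
  let R : C(L, 𝕜) →L[𝕜] C(K, 𝕜) := (cplx R₁ R₂).mkContinuous (2 * lam 1) (by
    intro f
    rw [ContinuousMap.norm_le_of_nonempty]
    intro t
    calc ‖cplx R₁ R₂ f t‖ ≤ 2 * lam (nrm f) := hRbound f t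
      _ ≤ 2 * (lam 1 * ‖f‖) := by
        gcongr
        exact hlam1 f
      _ = 2 * lam 1 * ‖f‖ := by ring)
  have hRapp : ∀ f, R f = cplx R₁ R₂ f := fun f => rfl
  have hRwc : IsWeaklyCompactOperator R := by
    apply isWeaklyCompact_of_le R ((2 : ℝ) • lam)
    · intro h hh
      change 0 ≤ 2 * lam h
      have := hlam h hh
      positivity
    · intro f
      change ‖R f‖ ≤ 2 * lam (nrm f)
      rw [ContinuousMap.norm_le_of_nonempty]
      intro t
      exact hRbound f t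
  refine (weakEssNorm_le hRwc).trans ?_
  have hfin : ‖T - R‖ ≤ 2 * (2 * ε' + η / 8) := by
    apply ContinuousLinearMap.opNorm_le_bound _ (by positivity)
    intro f
    rw [ContinuousMap.norm_le_of_nonempty]
    intro t
    obtain ⟨θ, hθ1, hθ2⟩ := exists_rot ((T - R : C(L, 𝕜) →L[𝕜] C(K, 𝕜)) : C(L, 𝕜) →ₗ[𝕜] C(K, 𝕜)) f t
    change ‖(T - R) f t‖ = RCLike.re (T (θ • f) t - R (θ • f) t) at hθ2
    rw [hθ2, map_sub, re_eq_parts, hRapp, re_cplx]
    have hnθ : ‖θ • f‖ = ‖f‖ := by rw [norm_smul, hθ1, one_mul]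
    have e1 : |rePart T (reC L (θ • f)) t - R₁ (reC L (θ • f)) t| ≤ (2 * ε' + η / 8) * ‖f‖ := by
      calc |rePart T (reC L (θ • f)) t - R₁ (reC L (θ • f)) t|
          = ‖(rePart T (reC L (θ • f)) - R₁ (reC L (θ • f))) t‖ := rfl
        _ ≤ ‖rePart T (reC L (θ • f)) - R₁ (reC L (θ • f))‖ := ContinuousMap.norm_coe_le_norm _ _
        _ ≤ (2 * ε' + η / 8) * ‖reC L (θ • f)‖ := hR₁' _
        _ ≤ (2 * ε' + η / 8) * ‖f‖ := by
          gcongr
          rw [← hnθ]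
          exact norm_reC_le _
    have e2 : |imPart T (imC L (θ • f)) t - R₂ (imC L (θ • f)) t| ≤ (2 * ε' + η / 8) * ‖f‖ := by
      calc |imPart T (imC L (θ • f)) t - R₂ (imC L (θ • f)) t|
          = ‖(imPart T (imC L (θ • f)) - R₂ (imC L (θ • f))) t‖ := rfl
        _ ≤ ‖imPart T (imC L (θ • f)) - R₂ (imC L (θ • f))‖ := ContinuousMap.norm_coe_le_norm _ _
        _ ≤ (2 * ε' + η / 8) * ‖imC L (θ • f)‖ := hR₂' _
        _ ≤ (2 * ε' + η / 8) * ‖f‖ := by
          gcongr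
          rw [← hnθ]
          exact norm_imC_le _
    have e3 := (abs_le.mp e1).2
    have e4 := (abs_le.mp e2).1
    linarith
  refine hfin.trans ?_
  rw [hε', hε]
  linarith

end Pool.Agent.WeakEss
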