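import Mathlib

/-!
# A Hahn-Banach lemma: sandwiched functionals with approximately prescribed values
-/

open Set Filter Topology

namespace Pool.Agent.WeakEss

theorem exists_functional_of_sublinear {E : Type*} [AddCommGroup E] [Module ℝ E]
    (p₁ p₂ : E → ℝ)
    (h₁ : ∀ c : ℝ, 0 < c → ∀ x, p₁ (c • x) = c * p₁ x) (a₁ : ∀ x y, p₁ (x + y) ≤ p₁ x + p₁ y)
    (h₂ : ∀ c : ℝ, 0 < c → ∀ x, p₂ (c • x) = c * p₂ x) (a₂ : ∀ x y, p₂ (x + y) ≤ p₂ x + p₂ y)
    {n : ℕ} (f : Fin n → E) (y : Fin n → ℝ) (ρ : ℝ) (hρ : 0 ≤ ρ)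
    (H : ∀ (c : Fin n → ℝ) (h : E),
      ∑ j, c j * y j ≤ p₁ (∑ j, c j • f j - h) + p₂ h + ρ * ∑ j, |c j|) :
    ∃ G : E →ₗ[ℝ] ℝ, (∀ x, G x ≤ p₁ x) ∧ (∀ x, G x ≤ p₂ x) ∧ ∀ j, |G (f j) - y j| ≤ ρ := by
  classical
  have p₁0 : p₁ 0 = 0 := by
    have := h₁ 2 (by norm_num) 0
    rw [smul_zero] at this
    linarith
  have p₂0 : p₂ 0 = 0 := by
    have := h₂ 2 (by norm_num) 0
    rw [smul_zero] at this
    linarith
  -- the linear map cutting out the subspace
  let Q : (E × E × (Fin n → ℝ)) →ₗ[ℝ] E :=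
    { toFun := fun z => z.1 + z.2.1 - ∑ j, z.2.2 j • f j
      map_add' := by
        intro z w
        simp only [Prod.fst_add, Prod.snd_add, Pi.add_apply, add_smul, Finset.sum_add_distrib]
        abel
      map_smul' := by
        intro c z
        simp only [Prod.smul_fst, Prod.smul_snd, Pi.smul_apply, smul_eq_mul, RingHom.id_apply,
          smul_sub, smul_add, Finset.smul_sum, smul_smul] }
  let ell : (E × E × (Fin n → ℝ)) →ₗ[ℝ] ℝ :=
    { toFun := fun z => ∑ j, z.2.2 j * y j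
      map_add' := by
        intro z w
        simp only [Prod.snd_add, Pi.add_apply, add_mul, Finset.sum_add_distrib]
      map_smul' := by
        intro c z
        simp only [Prod.smul_snd, Pi.smul_apply, smul_eq_mul, RingHom.id_apply, Finset.mul_sum,
          mul_assoc] }
  let S : Submodule ℝ (E × E × (Fin n → ℝ)) := LinearMap.ker Q
  let F : (E × E × (Fin n → ℝ)) →ₗ.[ℝ] ℝ := ⟨S, ell.domRestrict S⟩
  let N : (E × E × (Fin n → ℝ)) → ℝ := fun z => p₁ z.1 + p₂ z.2.1 + ρ * ∑ j, |z.2.2 j|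
  obtain ⟨Λ, hΛ, hN⟩ := exists_extension_of_le_sublinear F N
    (by
      intro c hc z
      simp only [N, Prod.smul_fst, Prod.smul_snd, Pi.smul_apply, smul_eq_mul, abs_mul,
        abs_of_pos hc, ← Finset.mul_sum]
      rw [h₁ c hc, h₂ c hc]
      ring)
    (by
      intro z w
      simp only [N, Prod.fst_add, Prod.snd_add, Pi.add_apply]
      have e1 := a₁ z.1 w.1
      have e2 := a₂ z.2.1 w.2.1
      have e3 : ∑ j, |z.2.2 j + w.2.2 j| ≤ ∑ j, |z.2.2 j| + ∑ j, |w.2.2 j| := by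
        rw [← Finset.sum_add_distrib]
        exact Finset.sum_le_sum (fun j _ => abs_add_le _ _)
      have e4 : ρ * ∑ j, |z.2.2 j + w.2.2 j| ≤ ρ * ∑ j, |z.2.2 j| + ρ * ∑ j, |w.2.2 j| := by
        rw [← mul_add]
        exact mul_le_mul_of_nonneg_left e3 hρ
      linarith)
    (by
      rintro ⟨z, hz⟩
      have hz' : z.1 + z.2.1 - ∑ j, z.2.2 j • f j = 0 := hz
      have e1 := H z.2.2 z.2.1
      have e2 : ∑ j, z.2.2 j • f j - z.2.1 = z.1 := by
        rw [sub_eq_zero] at hz'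
        rw [← hz']
        abel
      rw [e2] at e1
      exact e1)
  let G : E →ₗ[ℝ] ℝ := Λ.comp (LinearMap.inl ℝ E (E × (Fin n → ℝ)))
  have hG : ∀ x, G x = Λ (x, 0, 0) := fun x => rfl
  have hG2 : ∀ x, G x = Λ (0, x, 0) := by
    intro x
    have hmem : ((x, -x, 0) : E × E × (Fin n → ℝ)) ∈ S := by
      change x + -x - ∑ j, (0 : Fin n → ℝ) j • f j = 0
      simp
    have e1 := hΛ ⟨_, hmem⟩
    have e2 : F ⟨(x, -x, 0), hmem⟩ = 0 := by
      change ∑ j, (0 : Fin n → ℝ) j * y j = 0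
      simp
    rw [e2] at e1
    have e3 : ((x, -x, 0) : E × E × (Fin n → ℝ)) = (x, 0, 0) - (0, x, 0) := by
      simp
    have e4 : Λ ((x, 0, 0) - (0, x, 0)) = 0 := by
      rw [← e3]
      exact e1
    rw [map_sub] at e4
    rw [hG]
    linarith
  refine ⟨G, fun x => ?_, fun x => ?_, fun j => ?_⟩
  · rw [hG]
    have := hN (x, 0, 0)
    simpa [N, p₂0] using this
  · rw [hG2]
    have := hN (0, x, 0)
    simpa [N, p₁0] using this
  · have hmem : ((f j, 0, Pi.single j 1) : E × E × (Fin n → ℝ)) ∈ S := by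
      change f j + 0 - ∑ i, (Pi.single j (1 : ℝ) : Fin n → ℝ) i • f i = 0
      rw [Finset.sum_eq_single j]
      · simp
      · intro b _ hb
        simp [Pi.single_eq_of_ne hb]
      · intro hj
        exact absurd (Finset.mem_univ j) hj
    have e1 := hΛ ⟨_, hmem⟩
    have e2 : F ⟨(f j, 0, Pi.single j 1), hmem⟩ = y j := by
      change ∑ i, (Pi.single j (1 : ℝ) : Fin n → ℝ) i * y i = y j
      rw [Finset.sum_eq_single j]
      · simp
      · intro b _ hb
        simp [Pi.single_eq_of_ne hb]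
      · intro hj
        exact absurd (Finset.mem_univ j) hj
    rw [e2] at e1
    have e3 : ((f j, 0, Pi.single j 1) : E × E × (Fin n → ℝ)) = (f j, 0, 0) + (0, 0, Pi.single j 1) := by
      simp
    have e4 : Λ ((f j, 0, 0) + (0, 0, Pi.single j 1)) = y j := by
      rw [← e3]; exact e1
    rw [map_add] at e4
    have hsum : ∑ i, |(Pi.single j (1 : ℝ) : Fin n → ℝ) i| = 1 := by
      rw [Finset.sum_eq_single j]
      · simp
      · intro b _ hb
        simp [Pi.single_eq_of_ne hb]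
      · intro hj
        exact absurd (Finset.mem_univ j) hj
    have e5 : Λ (0, 0, Pi.single j 1) ≤ ρ := by
      have := hN (0, 0, Pi.single j 1)
      simp only [N, p₁0, p₂0, hsum] at this
      linarith
    have e6 : -Λ (0, 0, Pi.single j 1) ≤ ρ := by
      have := hN (0, 0, -Pi.single j 1)
      have e7 : ((0, 0, -Pi.single j 1) : E × E × (Fin n → ℝ)) = -(0, 0, Pi.single j 1) := by simp
      rw [e7, map_neg] at this
      simp only [N, Prod.fst_neg, Prod.snd_neg, neg_zero, p₁0, p₂0, Pi.neg_apply, abs_neg, hsum]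
        at this
      linarith
    rw [hG, abs_le]
    constructor <;> linarith

end Pool.Agent.WeakEss
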