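import Pool.Agent.WeakEss.HB

/-!
# Order intervals in the dual of `C(L)` and their nearest points
-/

set_option linter.unusedSectionVars false

open Set Filter Topology

namespace Pool.Agent.WeakEss

variable {L : Type*} [TopologicalSpace L] [CompactSpace L]

/-- A positive linear functional on `C(L)`. -/
def Pos (lam : C(L, ℝ) →ₗ[ℝ] ℝ) : Prop := ∀ h : C(L, ℝ), 0 ≤ h → 0 ≤ lam h

namespace Pos

variable {lam : C(L, ℝ) →ₗ[ℝ] ℝ} (hlam : Pos lam)

include hlam

theorem mono {f g : C(L, ℝ)} (h : f ≤ g) : lam f ≤ lam g := by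
  have := hlam (g - f) (sub_nonneg.mpr h)
  rw [map_sub] at this
  linarith

theorem abs_nonneg' (f : C(L, ℝ)) : 0 ≤ lam |f| := hlam _ (abs_nonneg f)

theorem one_nonneg : 0 ≤ lam 1 := hlam 1 (by intro x; simp)

theorem abs_le_norm (f : C(L, ℝ)) : lam |f| ≤ lam 1 * ‖f‖ := by
  have h1 : |f| ≤ ‖f‖ • (1 : C(L, ℝ)) := by
    intro x
    have := f.norm_coe_le_norm x
    simpa using this
  have := hlam.mono h1
  rw [map_smul, smul_eq_mul] at this
  linarith

theorem abs_smul {c : ℝ} (hc : 0 < c) (f : C(L, ℝ)) : lam |c • f| = c * lam |f| := by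
  have : |c • f| = c • |f| := by
    ext x
    simp [abs_mul, abs_of_pos hc]
  rw [this, map_smul, smul_eq_mul]

theorem abs_add (f g : C(L, ℝ)) : lam |f + g| ≤ lam |f| + lam |g| := by
  rw [← map_add]
  exact hlam.mono (abs_add_le f g)

theorem abs_sub_comm' (f g : C(L, ℝ)) : lam |f - g| = lam |g - f| := by
  rw [abs_sub_comm]

end Pos

/-- The order interval `[-lam, lam]` in the dual, with the weak-star topology. -/
def OI (lam : C(L, ℝ) →ₗ[ℝ] ℝ) : Set (WeakDual ℝ C(L, ℝ)) := {G | ∀ f, |G f| ≤ lam |f|}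

theorem OI_bound {lam : C(L, ℝ) →ₗ[ℝ] ℝ} (hlam : Pos lam) {G : WeakDual ℝ C(L, ℝ)}
    (hG : G ∈ OI lam) (f : C(L, ℝ)) : |G f| ≤ lam 1 * ‖f‖ := (hG f).trans (hlam.abs_le_norm f)

theorem convex_OI (lam : C(L, ℝ) →ₗ[ℝ] ℝ) : Convex ℝ (OI lam) := by
  intro G hG H hH a b ha hb hab f
  have h1 : (a • G + b • H) f = a * G f + b * H f := rfl
  rw [h1]
  calc |a * G f + b * H f| ≤ |a * G f| + |b * H f| := abs_add_le _ _
    _ = a * |G f| + b * |H f| := by rw [abs_mul, abs_mul, abs_of_nonneg ha, abs_of_nonneg hb]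
    _ ≤ a * lam |f| + b * lam |f| := by
      have := hG f
      have := hH f
      gcongr
    _ = lam |f| := by rw [← add_mul, hab, one_mul]

theorem isClosed_OI (lam : C(L, ℝ) →ₗ[ℝ] ℝ) : IsClosed (OI lam) := by
  have : OI lam = ⋂ f, {G : WeakDual ℝ C(L, ℝ) | |G f| ≤ lam |f|} := by
    ext G
    simp [OI]
  rw [this]
  refine isClosed_iInter (fun f => ?_)
  exact isClosed_le (continuous_abs.comp (WeakDual.eval_continuous f)) continuous_const

theorem isCompact_OI {lam : C(L, ℝ) →ₗ[ℝ] ℝ} (hlam : Pos lam) : IsCompact (OI lam) := by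
  apply IsCompact.of_isClosed_subset
    (WeakDual.isCompact_closedBall (𝕜 := ℝ) (0 : StrongDual ℝ C(L, ℝ)) (lam 1)) (isClosed_OI lam)
  intro G hG
  simp only [mem_preimage, Metric.mem_closedBall, dist_zero_right]
  apply ContinuousLinearMap.opNorm_le_bound _ hlam.one_nonneg
  intro f
  exact OI_bound hlam hG f

/-- Make an element of the order interval from a linear functional. -/
theorem exists_mem_OI {lam : C(L, ℝ) →ₗ[ℝ] ℝ} (hlam : Pos lam) (G : C(L, ℝ) →ₗ[ℝ] ℝ)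
    (hG : ∀ f, G f ≤ lam |f|) : ∃ G' ∈ OI lam, ∀ f, (G' : WeakDual ℝ C(L, ℝ)) f = G f := by
  have h1 : ∀ f, |G f| ≤ lam |f| := by
    intro f
    rw [abs_le]
    constructor
    · have := hG (-f)
      rw [map_neg, abs_neg] at this
      linarith
    · exact hG f
  let G' : C(L, ℝ) →L[ℝ] ℝ := G.mkContinuous (lam 1) (fun f => (h1 f).trans (hlam.abs_le_norm f))
  exact ⟨StrongDual.toWeakDual G', fun f => h1 f, fun f => rfl⟩

/-- Truncation of a function at level `κ`. -/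
noncomputable def tr (κ : ℝ) (f : C(L, ℝ)) : C(L, ℝ) :=
  (f ⊓ ContinuousMap.const L κ) ⊔ ContinuousMap.const L (-κ)

theorem tr_apply (κ : ℝ) (f : C(L, ℝ)) (x : L) : tr κ f x = max (min (f x) κ) (-κ) := rfl

theorem trunc_real {κ a b : ℝ} (hκ : 0 ≤ κ) (hb : |b| ≤ κ) :
    |a - b| = |a - max (min a κ) (-κ)| + |max (min a κ) (-κ) - b| := by
  rw [abs_le] at hb
  rcases le_total a κ with h1 | h1
  · rw [min_eq_left h1]
    rcases le_total a (-κ) with h2 | h2
    · rw [max_eq_right h2, abs_of_nonpos (by linarith), abs_of_nonpos (by linarith),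
        abs_of_nonpos (by linarith)]
      ring
    · rw [max_eq_left h2]; simp
  · rw [min_eq_right h1, max_eq_left (by linarith), abs_of_nonneg (by linarith),
      abs_of_nonneg (by linarith), abs_of_nonneg (by linarith)]
    ring

theorem abs_trunc_le {κ a : ℝ} (hκ : 0 ≤ κ) : |max (min a κ) (-κ)| ≤ κ := by
  rw [abs_le]
  constructor
  · exact le_max_right _ _
  · exact max_le (min_le_right _ _) (by linarith)

theorem norm_tr_le {κ : ℝ} (hκ : 0 ≤ κ) (f : C(L, ℝ)) : ‖tr κ f‖ ≤ κ := by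
  rw [ContinuousMap.norm_le _ hκ]
  intro x
  rw [tr_apply, Real.norm_eq_abs]
  exact abs_trunc_le hκ

theorem abs_sub_tr {κ : ℝ} (hκ : 0 ≤ κ) (f h : C(L, ℝ)) (hh : ‖h‖ ≤ κ) :
    |f - h| = |f - tr κ f| + |tr κ f - h| := by
  ext x
  simp only [ContinuousMap.abs_apply, ContinuousMap.sub_apply, ContinuousMap.add_apply, tr_apply]
  exact trunc_real hκ ((h.norm_coe_le_norm x).trans hh)

theorem abs_eq_tr {κ : ℝ} (hκ : 0 ≤ κ) (f : C(L, ℝ)) : |f| = |f - tr κ f| + |tr κ f| := by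
  have := abs_sub_tr hκ f 0 (by simpa using hκ)
  simpa using this

theorem continuous_tr : Continuous (fun z : ℝ × C(L, ℝ) => tr z.1 z.2) := by
  have h : LipschitzWith 1 (fun z : ℝ × C(L, ℝ) => tr z.1 z.2) := by
    apply LipschitzWith.of_dist_le_mul
    intro z w
    rw [NNReal.coe_one, one_mul, ContinuousMap.dist_le dist_nonneg]
    intro x
    have h1 : |z.1 - w.1| ≤ dist z w := by
      rw [Prod.dist_eq, ← Real.dist_eq]; exact le_max_left _ _
    have h2 : |z.2 x - w.2 x| ≤ dist z w := by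
      rw [Prod.dist_eq, ← Real.dist_eq]
      exact (ContinuousMap.dist_apply_le_dist x).trans (le_max_right _ _)
    have h3 : |-z.1 - -w.1| ≤ dist z w := by
      rw [neg_sub_neg, abs_sub_comm]; exact h1
    rw [tr_apply, tr_apply, Real.dist_eq]
    refine (abs_max_sub_max_le_max _ _ _ _).trans (max_le ?_ h3)
    exact (abs_min_sub_min_le_max _ _ _ _).trans (max_le h2 h1)
  exact h.continuous

theorem tendsto_tr {α : Type*} {𝒰 : Filter α} {κ : ℝ} {f : C(L, ℝ)} {k : α → ℝ}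
    {g : α → C(L, ℝ)} (hk : Tendsto k 𝒰 (𝓝 κ)) (hg : Tendsto g 𝒰 (𝓝 f)) :
    Tendsto (fun s => tr (k s) (g s)) 𝒰 (𝓝 (tr κ f)) := by
  have e1 : Tendsto (fun s => (k s, g s)) 𝒰 (𝓝 (κ, f)) := hk.prodMk_nhds hg
  have e2 : ContinuousAt (fun z : ℝ × C(L, ℝ) => tr z.1 z.2) (κ, f) :=
    continuous_tr.continuousAt
  exact Tendsto.comp e2 e1

section nearest

variable {lam : C(L, ℝ) →ₗ[ℝ] ℝ} (hlam : Pos lam)

/-- The distance of a functional to the order interval `[-lam, lam]`, in dual form. -/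
noncomputable def defect (lam : C(L, ℝ) →ₗ[ℝ] ℝ) (μ : C(L, ℝ) →L[ℝ] ℝ) : ℝ :=
  sSup ((fun f : C(L, ℝ) => μ f - lam |f|) '' Metric.closedBall 0 1)

include hlam

theorem defect_bdd (μ : C(L, ℝ) →L[ℝ] ℝ) :
    BddAbove ((fun f : C(L, ℝ) => μ f - lam |f|) '' Metric.closedBall 0 1) := by
  refine ⟨‖μ‖, ?_⟩
  rintro _ ⟨f, hf, rfl⟩
  rw [mem_closedBall_zero_iff] at hf
  have h1 := hlam.abs_nonneg' f
  have h2 := (le_abs_self (μ f)).trans (μ.le_opNorm f)
  have h3 : ‖μ‖ * ‖f‖ ≤ ‖μ‖ * 1 := by gcongr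
  simp only
  linarith

theorem le_defect (μ : C(L, ℝ) →L[ℝ] ℝ) {f : C(L, ℝ)} (hf : ‖f‖ ≤ 1) :
    μ f - lam |f| ≤ defect lam μ :=
  le_csSup (defect_bdd hlam μ) ⟨f, by simpa using hf, rfl⟩

theorem defect_nonneg (μ : C(L, ℝ) →L[ℝ] ℝ) : 0 ≤ defect lam μ := by
  have := le_defect hlam μ (f := 0) (by simp)
  simpa using this

theorem apply_le_defect (μ : C(L, ℝ) →L[ℝ] ℝ) (f : C(L, ℝ)) :
    μ f ≤ lam |f| + defect lam μ * ‖f‖ := by
  rcases eq_or_ne f 0 with rfl | hf
  · simp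
  · have hn : 0 < ‖f‖ := norm_pos_iff.mpr hf
    have h1 := le_defect hlam μ (f := ‖f‖⁻¹ • f) (by
      rw [norm_smul, norm_inv, norm_norm, inv_mul_cancel₀ hn.ne'])
    rw [map_smul, hlam.abs_smul (by positivity), smul_eq_mul] at h1
    have h2 : ‖f‖ * (‖f‖⁻¹ * μ f - ‖f‖⁻¹ * lam |f|) ≤ ‖f‖ * defect lam μ := by gcongr
    have h3 : ‖f‖ * (‖f‖⁻¹ * μ f - ‖f‖⁻¹ * lam |f|) = μ f - lam |f| := by
      field_simp
    rw [h3] at h2
    linarith

theorem defect_le (μ : C(L, ℝ) →L[ℝ] ℝ) {ε : ℝ} (hε : 0 ≤ ε)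
    (h : ∀ f, μ f ≤ lam |f| + ε * ‖f‖) : defect lam μ ≤ ε := by
  apply csSup_le ((Metric.nonempty_closedBall.mpr zero_le_one).image _)
  rintro _ ⟨f, hf, rfl⟩
  rw [mem_closedBall_zero_iff] at hf
  have h1 := h f
  have h2 : ε * ‖f‖ ≤ ε * 1 := by gcongr
  simp only
  linarith

theorem exists_near_defect (μ : C(L, ℝ) →L[ℝ] ℝ) {δ : ℝ} (hδ : 0 < δ) :
    ∃ f : C(L, ℝ), ‖f‖ ≤ 1 ∧ defect lam μ - δ < μ f - lam |f| := by
  obtain ⟨_, ⟨f, hf, rfl⟩, h⟩ := exists_lt_of_lt_csSup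
    ((Metric.nonempty_closedBall.mpr zero_le_one).image _)
    (show defect lam μ - δ < sSup ((fun f : C(L, ℝ) => μ f - lam |f|) '' Metric.closedBall 0 1) by
      change defect lam μ - δ < defect lam μ
      linarith)
  exact ⟨f, by simpa using hf, h⟩

/-- A nearest point of the order interval. -/
theorem exists_nearest (μ : C(L, ℝ) →L[ℝ] ℝ) :
    ∃ F ∈ OI lam, ∀ f, μ f - (F : WeakDual ℝ C(L, ℝ)) f ≤ defect lam μ * ‖f‖ := by
  obtain ⟨G, h1, h2, -⟩ := exists_functional_of_sublinear (E := C(L, ℝ)) (fun f => lam |f|)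
    (fun f => μ f + defect lam μ * ‖f‖)
    (fun c hc f => hlam.abs_smul hc f) hlam.abs_add
    (fun c hc f => by
      rw [map_smul, norm_smul, Real.norm_of_nonneg hc.le, smul_eq_mul]; ring)
    (fun f g => by
      rw [map_add]
      have := norm_add_le f g
      have := defect_nonneg hlam μ
      nlinarith)
    (n := 0) (fun j => j.elim0) (fun j => j.elim0) 0 le_rfl
    (fun c h => by
      simp only [Finset.univ_eq_empty, Finset.sum_empty, zero_sub, abs_neg, mul_zero, add_zero]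
      have := apply_le_defect hlam μ (-h)
      rw [map_neg, norm_neg, abs_neg] at this
      linarith)
  obtain ⟨F, hF, hFG⟩ := exists_mem_OI hlam G h1
  refine ⟨F, hF, fun f => ?_⟩
  rw [hFG]
  have := h2 (-f)
  rw [map_neg, map_neg, norm_neg] at this
  linarith

/-- **Key identity**: distances to points of the order interval are additive through the nearest
point. -/
theorem nearest_add (μ : C(L, ℝ) →L[ℝ] ℝ) {F G : WeakDual ℝ C(L, ℝ)} (hF : F ∈ OI lam)
    (hG : G ∈ OI lam) (hFμ : ∀ f, μ f - F f ≤ defect lam μ * ‖f‖) {x : ℝ} (hx : 0 ≤ x)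
    (hGμ : ∀ f, μ f - G f ≤ x * ‖f‖) (f : C(L, ℝ)) :
    F f - G f ≤ (x - defect lam μ) * ‖f‖ := by
  -- reduce to the unit ball
  have main : ∀ f₂ : C(L, ℝ), ‖f₂‖ ≤ 1 → F f₂ - G f₂ ≤ x - defect lam μ := by
    intro f₂ hf₂
    apply le_of_forall_pos_le_add
    intro δ' hδ'
    set δ := δ' / 4 with hδdef
    have hδ : 0 < δ := by positivity
    obtain ⟨f₁, hf₁, hf₁'⟩ := exists_near_defect hlam μ hδ
    set v := defect lam μ with hv
    set h : C(L, ℝ) := f₁ - |f₁| * f₂ with hh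
    set h' : C(L, ℝ) := f₁ + |f₁| * f₂ with hh'
    set k : C(L, ℝ) := (1 - |f₁|) * f₂ with hk
    have habs1 : ∀ y : L, |f₁ y| ≤ 1 := fun y => (f₁.norm_coe_le_norm y).trans hf₁
    have habs2 : ∀ y : L, |f₂ y| ≤ 1 := fun y => (f₂.norm_coe_le_norm y).trans hf₂
    have hkbound : ∀ y : L, |k y| ≤ 1 - |f₁ y| := by
      intro y
      have e1 : k y = (1 - |f₁ y|) * f₂ y := rfl
      rw [e1, abs_mul, abs_of_nonneg (by linarith [habs1 y])]
      have := habs2 y
      have := habs1 y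
      nlinarith [abs_nonneg (f₂ y)]
    have hn1 : ‖f₁ - k‖ ≤ 1 := by
      rw [ContinuousMap.norm_le _ zero_le_one]
      intro y
      have e1 : (f₁ - k) y = f₁ y - k y := rfl
      rw [e1, Real.norm_eq_abs]
      calc |f₁ y - k y| ≤ |f₁ y| + |k y| := abs_sub _ _
        _ ≤ 1 := by linarith [hkbound y]
    have hn2 : ‖f₁ + k‖ ≤ 1 := by
      rw [ContinuousMap.norm_le _ zero_le_one]
      intro y
      have e1 : (f₁ + k) y = f₁ y + k y := rfl
      rw [e1, Real.norm_eq_abs]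
      calc |f₁ y + k y| ≤ |f₁ y| + |k y| := abs_add_le _ _
        _ ≤ 1 := by linarith [hkbound y]
    have hvnn := defect_nonneg hlam μ
    rw [← hv] at hvnn
    -- bounds for D = μ - F
    have hD1 : μ f₁ - F f₁ ≤ v := by
      have := hFμ f₁
      have : v * ‖f₁‖ ≤ v * 1 := by gcongr
      linarith
    have hFf1 : F f₁ ≤ lam |f₁| := (le_abs_self _).trans (hF f₁)
    have hFlow : lam |f₁| - δ ≤ F f₁ := by linarith
    have hDlow : v - δ ≤ μ f₁ - F f₁ := by linarith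
    have hDk : -δ ≤ μ k - F k := by
      have e1 := hFμ (f₁ - k)
      have e2 : v * ‖f₁ - k‖ ≤ v * 1 := by gcongr
      rw [map_sub, map_sub] at e1
      linarith
    -- F is nearly maximal on h
    have hsum : h + h' = (2 : ℝ) • f₁ := by
      rw [hh, hh', two_smul]; ring
    have habs : |h| + |h'| = (2 : ℝ) • |f₁| := by
      ext y
      have e1 : (|h| + |h'|) y = |f₁ y - |f₁ y| * f₂ y| + |f₁ y + |f₁ y| * f₂ y| := rfl
      have e2 : ((2 : ℝ) • |f₁|) y = 2 * |f₁ y| := rfl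
      rw [e1, e2]
      have hb := habs2 y
      rw [abs_le] at hb
      rcases le_total 0 (f₁ y) with hpos | hneg
      · rw [abs_of_nonneg hpos, abs_of_nonneg (by nlinarith), abs_of_nonneg (by nlinarith)]
        ring
      · rw [abs_of_nonpos hneg, abs_of_nonpos (by nlinarith), abs_of_nonpos (by nlinarith)]
        ring
    have hFh : lam |h| - 2 * δ ≤ F h := by
      have e1 : F h + F h' = 2 * F f₁ := by
        rw [← map_add, hsum, map_smul, smul_eq_mul]
      have e2 : lam |h| + lam |h'| = 2 * lam |f₁| := by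
        rw [← map_add, habs, map_smul, smul_eq_mul]
      have e3 : F h' ≤ lam |h'| := (le_abs_self _).trans (hF h')
      linarith
    have hGh : G h ≤ lam |h| := (le_abs_self _).trans (hG h)
    have e4 := hGμ (f₁ + k)
    have e5 : x * ‖f₁ + k‖ ≤ x * 1 := by gcongr
    have e6 : f₁ + k = h + f₂ := by
      rw [hk, hh]; ring
    have e7 : G f₁ + G k = G h + G f₂ := by
      rw [← map_add, ← map_add, e6]
    have e8 : F f₁ + F k = F h + F f₂ := by
      rw [← map_add, ← map_add, e6]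
    rw [map_add, map_add] at e4
    have e9 : 4 * δ = δ' := by rw [hδdef]; ring
    linarith
  rcases eq_or_ne f 0 with rfl | hf
  · simp
  · have hn : 0 < ‖f‖ := norm_pos_iff.mpr hf
    have h1 := main (‖f‖⁻¹ • f) (by
      rw [norm_smul, norm_inv, norm_norm, inv_mul_cancel₀ hn.ne'])
    rw [map_smul, map_smul, smul_eq_mul, smul_eq_mul, ← mul_sub] at h1
    rw [inv_mul_le_iff₀ hn] at h1
    linarith

end nearest

end Pool.Agent.WeakEss
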