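import Pool.Agent.WeakEss.Factor
import Pool.Agent.WeakEss.Order

/-!
# A dominating functional, or finite families with large values and small sum
-/

set_option linter.unusedSectionVars false

open Set Filter Topology

namespace Pool.Agent.WeakEss

variable {𝕜 : Type*} [RCLike 𝕜] {L : Type*} [TopologicalSpace L] [CompactSpace L]

theorem nrm_smul (c : 𝕜) (f : C(L, 𝕜)) : nrm (c • f) = ‖c‖ • nrm f := by
  ext x
  simp

theorem nrm_nonneg (f : C(L, 𝕜)) : 0 ≤ nrm f := fun x => norm_nonneg (f x)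

/-- From bounds for real parts on the unit ball to bounds for all functions. -/
theorem bound_of_re_bound (lam : C(L, ℝ) →ₗ[ℝ] ℝ) (μ : StrongDual 𝕜 C(L, 𝕜)) (ε : ℝ)
    (h : ∀ f : C(L, 𝕜), ‖f‖ ≤ 1 → RCLike.re (μ f) ≤ lam (nrm f) + ε) (f : C(L, 𝕜)) :
    ‖μ f‖ ≤ lam (nrm f) + ε * ‖f‖ := by
  rcases eq_or_ne f 0 with rfl | hf
  · have : nrm (0 : C(L, 𝕜)) = 0 := by ext x; simp
    simp [this]
  · have hn : 0 < ‖f‖ := norm_pos_iff.mpr hf
    obtain ⟨θ, hθ1, hθ2⟩ := RCLike.exists_norm_eq_mul_self (μ f)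
    have h1 := h (((‖f‖⁻¹ : ℝ) : 𝕜) • θ • f) (by
      rw [norm_smul, norm_smul, hθ1, RCLike.norm_ofReal, abs_of_pos (inv_pos.mpr hn), one_mul,
        inv_mul_cancel₀ hn.ne'])
    have h0 : μ (((‖f‖⁻¹ : ℝ) : 𝕜) • θ • f) = ((‖f‖⁻¹ : ℝ) : 𝕜) * ((‖μ f‖ : ℝ) : 𝕜) := by
      rw [μ.map_smul, μ.map_smul, smul_eq_mul, smul_eq_mul, ← hθ2]
    rw [h0, RCLike.re_ofReal_mul,
      RCLike.ofReal_re, nrm_smul, nrm_smul, hθ1, one_smul, RCLike.norm_ofReal,
      abs_of_pos (inv_pos.mpr hn), lam.map_smul, smul_eq_mul] at h1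
    have h2 : ‖f‖ * (‖f‖⁻¹ * ‖μ f‖) ≤ ‖f‖ * (‖f‖⁻¹ * lam (nrm f) + ε) := by gcongr
    have h3 : ‖f‖ * (‖f‖⁻¹ * ‖μ f‖) = ‖μ f‖ := by field_simp
    have h4 : ‖f‖ * (‖f‖⁻¹ * lam (nrm f) + ε) = lam (nrm f) + ε * ‖f‖ := by field_simp
    rw [h3, h4] at h2
    exact h2

/-- Existence of a dominating functional by separation. -/
theorem exists_functional {ι : Type*} [Nonempty ι] (μ : ι → StrongDual 𝕜 C(L, 𝕜)) {ε N : ℝ}
    (hN : 0 ≤ N)
    (h : ∀ z ∈ convexHull ℝ (range fun x : ι × Metric.closedBall (0 : C(L, 𝕜)) 1 =>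
      (nrm x.2.1, RCLike.re (μ x.1 x.2.1))), z.2 ≤ ε + N * ‖z.1‖) :
    ∃ lam : C(L, ℝ) →ₗ[ℝ] ℝ, Pos lam ∧ ∀ i f, ‖μ i f‖ ≤ lam (nrm f) + ε * ‖f‖ := by
  set C := convexHull ℝ (range fun x : ι × Metric.closedBall (0 : C(L, 𝕜)) 1 =>
      (nrm x.2.1, RCLike.re (μ x.1 x.2.1))) with hC
  let D : Set (C(L, ℝ) × ℝ) := {z | ∃ c : ℝ, 0 ≤ c ∧ (∀ x, z.1 x ≤ c) ∧ ε + N * c < z.2}
  have hDconv : Convex ℝ D := by
    rintro ⟨G, s⟩ ⟨c, hc0, hc1, hc2⟩ ⟨G', s'⟩ ⟨c', hc0', hc1', hc2'⟩ a b ha hb hab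
    refine ⟨a * c + b * c', by positivity, fun x => ?_, ?_⟩
    · have e1 := hc1 x
      have e2 := hc1' x
      have e3 : (a • (G, s) + b • (G', s')).1 x = a * G x + b * G' x := rfl
      rw [e3]
      simp only at e1 e2
      gcongr
    · have e3 : (a • (G, s) + b • (G', s')).2 = a * s + b * s' := rfl
      rw [e3]
      simp only at hc2 hc2'
      rcases eq_or_lt_of_le ha with h0 | h0
      · have hb1 : b = 1 := by linarith
        rw [← h0, hb1]
        simpa using hc2'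
      · have e4 : a * (ε + N * c) < a * s := by gcongr
        have e5 : b * (ε + N * c') ≤ b * s' := by gcongr
        have e6 : ε = a * ε + b * ε := by rw [← add_mul, hab, one_mul]
        nlinarith
  have hDopen : IsOpen D := by
    rw [Metric.isOpen_iff]
    rintro ⟨G, s⟩ ⟨c, hc0, hc1, hc2⟩
    simp only at hc1 hc2
    set δ := (s - (ε + N * c)) / (N + 2) with hδ
    have hN2 : 0 < N + 2 := by linarith
    have hδ0 : 0 < δ := by
      rw [hδ]; apply div_pos _ hN2; linarith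
    have hδ1 : (N + 2) * δ = s - (ε + N * c) := by
      rw [hδ]; field_simp
    refine ⟨δ, hδ0, ?_⟩
    rintro ⟨G', s'⟩ hz
    rw [Metric.mem_ball, Prod.dist_eq, max_lt_iff] at hz
    obtain ⟨hz1, hz2⟩ := hz
    simp only at hz1 hz2
    refine ⟨c + δ, by positivity, fun x => ?_, ?_⟩
    · have e1 : |G' x - G x| ≤ δ := by
        rw [← Real.dist_eq]
        exact (ContinuousMap.dist_apply_le_dist x).trans hz1.le
      have e2 := hc1 x
      rw [abs_le] at e1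
      simp only
      linarith [e1.2]
    · rw [Real.dist_eq, abs_lt] at hz2
      simp only
      nlinarith [hz2.1]
  have hCpos : ∀ z ∈ C, 0 ≤ z.1 := by
    have hconv : Convex ℝ {z : C(L, ℝ) × ℝ | 0 ≤ z.1} := by
      rintro ⟨G, s⟩ hG ⟨G', s'⟩ hG' a b ha hb _ x
      have e1 : 0 ≤ G x := hG x
      have e2 : 0 ≤ G' x := hG' x
      change (0 : ℝ) ≤ a * G x + b * G' x
      positivity
    have hsub : C ⊆ {z : C(L, ℝ) × ℝ | 0 ≤ z.1} := by
      apply convexHull_min _ hconv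
      rintro _ ⟨x, rfl⟩
      exact nrm_nonneg _
    exact hsub
  have hdisj : Disjoint D C := by
    rw [Set.disjoint_left]
    rintro z ⟨c, hc0, hc1, hc2⟩ hzC
    have e1 := h z hzC
    have e2 : ‖z.1‖ ≤ c := by
      rw [ContinuousMap.norm_le _ hc0]
      intro x
      have e3 : 0 ≤ z.1 x := hCpos z hzC x
      rw [Real.norm_of_nonneg e3]
      exact hc1 x
    have e4 : N * ‖z.1‖ ≤ N * c := by gcongr
    linarith
  obtain ⟨f, u, hf1, hf2⟩ := geometric_hahn_banach_open hDconv hDopen (convex_convexHull ℝ _) hdisj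
  set κ := f (0, 1) with hκ
  let ell : C(L, ℝ) →ₗ[ℝ] ℝ := (f : (C(L, ℝ) × ℝ) →ₗ[ℝ] ℝ).comp (LinearMap.inl ℝ C(L, ℝ) ℝ)
  have hell : ∀ G, ell G = f (G, 0) := fun G => rfl
  have hfsplit : ∀ G s, f (G, s) = ell G + s * κ := by
    intro G s
    have e1 : ((G, s) : C(L, ℝ) × ℝ) = (G, 0) + s • (0, 1) := by simp
    rw [e1, map_add, map_smul, smul_eq_mul, hell, hκ]
  have hD : ∀ (G : C(L, ℝ)) (c s : ℝ), 0 ≤ c → (∀ x, G x ≤ c) → ε + N * c < s →
      ell G + s * κ < u := by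
    intro G c s hc hG hs
    rw [← hfsplit]
    exact hf1 (G, s) ⟨c, hc, hG, hs⟩
  have hCx : ∀ (i : ι) (g : C(L, 𝕜)), ‖g‖ ≤ 1 → u ≤ ell (nrm g) + RCLike.re (μ i g) * κ := by
    intro i g hg
    rw [← hfsplit]
    apply hf2
    apply subset_convexHull
    exact ⟨(i, ⟨g, by simpa using hg⟩), rfl⟩
  have h00 : ∀ s, ε < s → s * κ < u := by
    intro s hs
    have := hD 0 0 s le_rfl (fun x => by simp) (by simpa using hs)
    simpa using this
  have hκneg : κ < 0 := by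
    rcases lt_trichotomy κ 0 with h1 | h1 | h1
    · exact h1
    · exfalso
      obtain ⟨i⟩ := ‹Nonempty ι›
      have e1 := hCx i 0 (by simp)
      have e2 : nrm (0 : C(L, 𝕜)) = 0 := by ext x; simp
      rw [e2, map_zero, h1, mul_zero, add_zero] at e1
      have e3 := h00 (ε + 1) (by linarith)
      rw [h1, mul_zero] at e3
      linarith
    · exfalso
      have e1 := h00 (max (ε + 1) (u / κ)) (lt_of_lt_of_le (by linarith) (le_max_left _ _))
      have e2 : u / κ * κ ≤ max (ε + 1) (u / κ) * κ := by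
        gcongr
        exact le_max_right _ _
      rw [div_mul_cancel₀ _ h1.ne'] at e2
      linarith
  have hnκ : 0 < -κ := by linarith
  let lam : C(L, ℝ) →ₗ[ℝ] ℝ := (-κ)⁻¹ • ell
  have hlam : ∀ G, lam G = (-κ)⁻¹ * ell G := fun G => rfl
  set u' := (-κ)⁻¹ * u with hu'
  have hκi : (-κ)⁻¹ * κ = -1 := by
    have : κ ≠ 0 := hκneg.ne
    field_simp
  have hbound : ∀ (G : C(L, ℝ)) (c : ℝ), 0 ≤ c → (∀ x, G x ≤ c) → lam G ≤ u' + ε + N * c := by
    intro G c hc hG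
    apply le_of_forall_pos_le_add
    intro δ hδ
    have e1 := hD G c (ε + N * c + δ) hc hG (by linarith)
    have e2 : (-κ)⁻¹ * (ell G + (ε + N * c + δ) * κ) < (-κ)⁻¹ * u := by
      have : 0 < (-κ)⁻¹ := inv_pos.mpr hnκ
      gcongr
    rw [← hu', mul_add, ← hlam] at e2
    have e3 : (-κ)⁻¹ * ((ε + N * c + δ) * κ) = -(ε + N * c + δ) := by
      rw [mul_comm (ε + N * c + δ) κ, ← mul_assoc, hκi]; ring
    rw [e3] at e2
    linarith
  have hu0 : 0 ≤ u' + ε := by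
    have := hbound 0 0 le_rfl (fun x => by simp)
    simpa using this
  have hpos' : ∀ G : C(L, ℝ), G ≤ 0 → lam G ≤ 0 := by
    intro G hG
    by_contra hcon
    push Not at hcon
    -- scale up
    set τ := (u' + ε) / lam G + 1 with hτ
    have hτ0 : 0 < τ := by positivity
    have e1 := hbound (τ • G) 0 le_rfl (fun x => by
      have : G x ≤ 0 := hG x
      have e2 : (τ • G) x = τ * G x := rfl
      rw [e2]
      exact mul_nonpos_of_nonneg_of_nonpos hτ0.le this)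
    rw [map_smul, smul_eq_mul, mul_zero, add_zero] at e1
    have e2 : τ * lam G = u' + ε + lam G := by
      rw [hτ]; field_simp
    rw [e2] at e1
    linarith
  have hpos : Pos lam := by
    intro G hG
    have := hpos' (-G) (neg_nonpos.mpr hG)
    rw [map_neg] at this
    linarith
  refine ⟨lam, hpos, fun i => bound_of_re_bound lam (μ i) ε (fun g hg => ?_)⟩
  have e1 := hCx i g hg
  have e2 : (-κ)⁻¹ * u ≤ (-κ)⁻¹ * (ell (nrm g) + RCLike.re (μ i g) * κ) := by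
    have : 0 < (-κ)⁻¹ := inv_pos.mpr hnκ
    gcongr
  rw [← hu', mul_add, ← hlam] at e2
  have e3 : (-κ)⁻¹ * (RCLike.re (μ i g) * κ) = -RCLike.re (μ i g) := by
    rw [mul_comm (RCLike.re (μ i g)) κ, ← mul_assoc, hκi]; ring
  rw [e3] at e2
  linarith

end Pool.Agent.WeakEss
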