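import Pool.Agent.WeakEss.Order

/-!
# Lower semicontinuity and selection
-/

set_option linter.unusedSectionVars false

open Set Filter Topology

namespace Pool.Agent.WeakEss

variable {L : Type*} [TopologicalSpace L] [CompactSpace L]

section witness

variable {lam : C(L, ℝ) →ₗ[ℝ] ℝ} (hlam : Pos lam)

/-- Linear combination of finitely many functions. -/
noncomputable def lin {n : ℕ} (fs : Fin n → C(L, ℝ)) (c : Fin n → ℝ) : C(L, ℝ) :=
  ∑ j, c j • fs j

theorem continuous_lin {n : ℕ} (fs : Fin n → C(L, ℝ)) : Continuous (lin fs) := by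
  unfold lin
  fun_prop

theorem apply_lin {n : ℕ} (fs : Fin n → C(L, ℝ)) (c : Fin n → ℝ) (G : WeakDual ℝ C(L, ℝ)) :
    G (lin fs c) = ∑ j, c j * G (fs j) := by
  unfold lin
  rw [map_sum]
  exact Finset.sum_congr rfl (fun j _ => by rw [map_smul, smul_eq_mul])

theorem norm_lin_le {n : ℕ} (fs : Fin n → C(L, ℝ)) (c : Fin n → ℝ) (hc : ∀ j, |c j| ≤ 1) :
    ‖lin fs c‖ ≤ ∑ j, ‖fs j‖ := by
  unfold lin
  refine (norm_sum_le _ _).trans (Finset.sum_le_sum (fun j _ => ?_))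
  rw [norm_smul, Real.norm_eq_abs]
  have := hc j
  have := norm_nonneg (fs j)
  nlinarith

include hlam

/-- If there is no good approximation of `G` at a given point, there is a witness. -/
theorem exists_witness {F G : WeakDual ℝ C(L, ℝ)} (hF : F ∈ OI lam) (hG : G ∈ OI lam) {r η ρ : ℝ}
    (hη : 0 < η) (hr : η ≤ r) (hρ : 0 < ρ) {n : ℕ} (fs : Fin n → C(L, ℝ))
    (hno : ¬ ∃ H ∈ OI lam, (∀ f, (H : WeakDual ℝ C(L, ℝ)) f - F f ≤ r * ‖f‖) ∧
      ∀ j, |H (fs j) - G (fs j)| ≤ ρ) :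
    ∃ (c : Fin n → ℝ) (κ : ℝ), (∀ j, |c j| ≤ 1) ∧ 0 ≤ κ ∧
      κ ≤ (2 * lam 1 * ∑ j, ‖fs j‖) / η ∧
      lam |lin fs c - tr κ (lin fs c)| + F (tr κ (lin fs c)) + r * κ + ρ ≤ G (lin fs c) := by
  have hr0 : 0 < r := lt_of_lt_of_le hη hr
  -- a violating pair
  obtain ⟨c₀, h₀, hviol⟩ : ∃ (c : Fin n → ℝ) (h : C(L, ℝ)),
      lam |lin fs c - h| + (F h + r * ‖h‖) + ρ * ∑ j, |c j| < G (lin fs c) := by
    by_contra hcon
    push Not at hcon
    apply hno
    obtain ⟨H, h1, h2, h3⟩ := exists_functional_of_sublinear (E := C(L, ℝ)) (fun f => lam |f|)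
      (fun f => F f + r * ‖f‖)
      (fun c hc f => hlam.abs_smul hc f) hlam.abs_add
      (fun c hc f => by
        rw [map_smul, norm_smul, Real.norm_of_nonneg hc.le, smul_eq_mul]; ring)
      (fun f g => by
        rw [map_add]
        have := norm_add_le f g
        nlinarith)
      fs (fun j => G (fs j)) ρ hρ.le
      (fun c h => by
        have := hcon c h
        rw [apply_lin] at this
        exact this)
    obtain ⟨H', hH', hHH'⟩ := exists_mem_OI hlam H h1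
    refine ⟨H', hH', fun f => ?_, fun j => ?_⟩
    · rw [hHH']
      have := h2 f
      linarith
    · rw [hHH']
      exact h3 j
  -- the coefficients do not vanish
  have hFneg : ∀ h, -(lam |h|) ≤ F h := fun h => (abs_le.mp (hF h)).1
  set σ := ∑ j, |c₀ j| with hσ
  have hσ0 : 0 < σ := by
    rcases (Finset.sum_nonneg (fun j (_ : j ∈ Finset.univ) => abs_nonneg (c₀ j))).eq_or_lt with h | h
    · exfalso
      have hz : ∀ j, c₀ j = 0 := by
        intro j
        have := (Finset.sum_eq_zero_iff_of_nonneg (fun j _ => abs_nonneg (c₀ j))).mp h.symm j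
          (Finset.mem_univ j)
        simpa using this
      have hl : lin fs c₀ = 0 := by
        unfold lin
        exact Finset.sum_eq_zero (fun j _ => by rw [hz j, zero_smul])
      rw [← hσ] at h
      rw [hl, ← h, zero_sub, abs_neg, map_zero] at hviol
      have e1 := hFneg h₀
      have e2 : 0 ≤ r * ‖h₀‖ := by positivity
      linarith
    · exact h
  -- normalisation
  set c : Fin n → ℝ := fun j => σ⁻¹ * c₀ j with hc
  set h : C(L, ℝ) := σ⁻¹ • h₀ with hh
  have hσi : 0 < σ⁻¹ := inv_pos.mpr hσ0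
  have hlin : lin fs c = σ⁻¹ • lin fs c₀ := by
    unfold lin
    rw [Finset.smul_sum]
    exact Finset.sum_congr rfl (fun j _ => by rw [hc, smul_smul])
  have hcabs : ∀ j, |c j| ≤ 1 := by
    intro j
    rw [hc]
    simp only
    rw [abs_mul, abs_of_pos hσi, inv_mul_le_iff₀ hσ0, mul_one]
    exact Finset.single_le_sum (f := fun j => |c₀ j|) (fun j _ => abs_nonneg _) (Finset.mem_univ j)
  have hviol' : lam |lin fs c - h| + (F h + r * ‖h‖) + ρ < G (lin fs c) := by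
    have e1 : lin fs c - h = σ⁻¹ • (lin fs c₀ - h₀) := by rw [hlin, hh, smul_sub]
    rw [e1, hlam.abs_smul hσi, hlin, hh, map_smul, map_smul, norm_smul,
      Real.norm_of_nonneg hσi.le, smul_eq_mul, smul_eq_mul]
    have e2 : σ⁻¹ * (lam |lin fs c₀ - h₀| + (F h₀ + r * ‖h₀‖) + ρ * σ) < σ⁻¹ * G (lin fs c₀) := by
      gcongr
    have e3 : σ⁻¹ * (lam |lin fs c₀ - h₀| + (F h₀ + r * ‖h₀‖) + ρ * σ)
        = σ⁻¹ * lam |lin fs c₀ - h₀| + (σ⁻¹ * F h₀ + r * (σ⁻¹ * ‖h₀‖)) + ρ := by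
      field_simp
    rw [e3] at e2
    exact e2
  set κ := ‖h‖ with hκ
  have hκ0 : 0 ≤ κ := norm_nonneg _
  have htr : lam |lin fs c - tr κ (lin fs c)| + F (tr κ (lin fs c)) ≤ lam |lin fs c - h| + F h := by
    rw [abs_sub_tr hκ0 (lin fs c) h le_rfl, map_add]
    have e1 : F (tr κ (lin fs c)) - F h ≤ lam |tr κ (lin fs c) - h| := by
      rw [← map_sub]
      exact (le_abs_self _).trans (hF _)
    linarith
  have hfin : lam |lin fs c - tr κ (lin fs c)| + F (tr κ (lin fs c)) + r * κ + ρ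
      ≤ G (lin fs c) := by linarith
  refine ⟨c, κ, hcabs, hκ0, ?_, hfin⟩
  rw [le_div_iff₀ hη]
  have e1 : lam |lin fs c| = lam |lin fs c - tr κ (lin fs c)| + lam |tr κ (lin fs c)| := by
    rw [← map_add, ← abs_eq_tr hκ0]
  have e2 := hFneg (tr κ (lin fs c))
  have e3 : G (lin fs c) ≤ lam |lin fs c| := (le_abs_self _).trans (hG _)
  have e4 : 0 ≤ lam |lin fs c - tr κ (lin fs c)| := hlam.abs_nonneg' _
  have e5 : lam |lin fs c| ≤ lam 1 * ∑ j, ‖fs j‖ :=
    (hlam.abs_le_norm _).trans (mul_le_mul_of_nonneg_left (norm_lin_le fs c hcabs)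
      hlam.one_nonneg)
  have e6 : κ * η ≤ r * κ := by nlinarith
  linarith

end witness

section lsc

variable {K : Type*} [TopologicalSpace K]
variable {lam : C(L, ℝ) →ₗ[ℝ] ℝ} (hlam : Pos lam)

/-- There is an element of the order interval which is `r`-close to `F` in norm and `ρ`-close to
`G` on the functions `fs`. -/
def GoodAt {n : ℕ} (lam : C(L, ℝ) →ₗ[ℝ] ℝ) (r ρ : ℝ) (fs : Fin n → C(L, ℝ))
    (G F : WeakDual ℝ C(L, ℝ)) : Prop :=
  ∃ H ∈ OI lam, (∀ f, (H : WeakDual ℝ C(L, ℝ)) f - F f ≤ r * ‖f‖) ∧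
    ∀ j, |H (fs j) - G (fs j)| ≤ ρ

include hlam

/-- Lower semicontinuity of the set-valued map. -/
theorem lsc (μ : K → (C(L, ℝ) →L[ℝ] ℝ)) (hμ : ∀ f, Continuous (fun t => μ t f))
    {ε : ℝ} (hε : ∀ t, defect lam (μ t) ≤ ε) (F : K → WeakDual ℝ C(L, ℝ))
    (hF : ∀ t, F t ∈ OI lam)
    (hFμ : ∀ t f, μ t f - F t f ≤ defect lam (μ t) * ‖f‖) {η : ℝ} (hη : 0 < η)
    (t : K) {G : WeakDual ℝ C(L, ℝ)} (hG : G ∈ OI lam)
    (hGF : ∀ f, G f - F t f ≤ (defect lam (μ t) + η) * ‖f‖) {n : ℕ} (fs : Fin n → C(L, ℝ))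
    {ρ : ℝ} (hρ : 0 < ρ) :
    ∀ᶠ s in 𝓝 t, GoodAt lam (defect lam (μ s) + η) ρ fs G (F s) := by
  rw [Filter.Eventually, mem_iff_ultrafilter]
  intro 𝒰 h𝒰
  by_contra hcon
  rw [← Ultrafilter.compl_mem_iff_notMem] at hcon
  have hbad : ∀ᶠ s in (𝒰 : Filter K),
      ¬ GoodAt lam (defect lam (μ s) + η) ρ fs G (F s) := hcon
  -- witnesses
  have hw : ∀ s, ∃ z : (Fin n → ℝ) × ℝ,
      (¬ GoodAt lam (defect lam (μ s) + η) ρ fs G (F s)) → (∀ j, |z.1 j| ≤ 1) ∧ 0 ≤ z.2 ∧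
      z.2 ≤ (2 * lam 1 * ∑ j, ‖fs j‖) / η ∧
      lam |lin fs z.1 - tr z.2 (lin fs z.1)| + F s (tr z.2 (lin fs z.1))
        + (defect lam (μ s) + η) * z.2 + ρ ≤ G (lin fs z.1) := by
    intro s
    by_cases h : GoodAt lam (defect lam (μ s) + η) ρ fs G (F s)
    · exact ⟨(0, 0), fun h' => absurd h h'⟩
    · obtain ⟨c, κ, h1, h2, h3, h4⟩ := exists_witness hlam (hF s) hG hη
        (le_add_of_nonneg_left (defect_nonneg hlam (μ s))) hρ fs h
      exact ⟨(c, κ), fun _ => ⟨h1, h2, h3, h4⟩⟩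
  choose z hz using hw
  -- limits along the ultrafilter
  obtain ⟨F', hF'mem, hF'⟩ := (isCompact_OI hlam).ultrafilter_le_nhds (𝒰.map F)
    (by
      rw [Ultrafilter.coe_map, le_principal_iff, Filter.mem_map]
      exact Filter.Eventually.of_forall (fun s => hF s))
  have hF'lim : Tendsto F 𝒰 (𝓝 F') := hF'
  obtain ⟨v', hv'mem, hv'⟩ := (isCompact_Icc (a := (0 : ℝ)) (b := ε)).ultrafilter_le_nhds
    (𝒰.map (fun s => defect lam (μ s)))
    (by
      rw [Ultrafilter.coe_map, le_principal_iff, Filter.mem_map]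
      exact Filter.Eventually.of_forall (fun s => ⟨defect_nonneg hlam (μ s), hε s⟩))
  have hv'lim : Tendsto (fun s => defect lam (μ s)) 𝒰 (𝓝 v') := hv'
  set Cmax := (2 * lam 1 * ∑ j, ‖fs j‖) / η with hCmax
  have hQ : IsCompact ((Set.univ.pi (fun _ : Fin n => Icc (-1 : ℝ) 1)) ×ˢ Icc (0 : ℝ) Cmax) :=
    (isCompact_univ_pi (fun _ => isCompact_Icc)).prod isCompact_Icc
  obtain ⟨⟨c, κ⟩, hzmem, hz'⟩ := hQ.ultrafilter_le_nhds (𝒰.map z)
    (by
      rw [Ultrafilter.coe_map, le_principal_iff, Filter.mem_map]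
      filter_upwards [hbad] with s hs
      obtain ⟨h1, h2, h3, -⟩ := hz s hs
      exact ⟨fun j _ => abs_le.mp (h1 j), h2, h3⟩)
  have hzlim : Tendsto z 𝒰 (𝓝 (c, κ)) := hz'
  have hκ0 : 0 ≤ κ := hzmem.2.1
  -- the limit function
  have hc1 : Tendsto (fun s => (z s).1) 𝒰 (𝓝 c) := (continuous_fst.tendsto (c, κ)).comp hzlim
  have hk1 : Tendsto (fun s => (z s).2) 𝒰 (𝓝 κ) := (continuous_snd.tendsto (c, κ)).comp hzlim
  obtain ⟨f, hf⟩ : ∃ f, f = lin fs c := ⟨_, rfl⟩
  obtain ⟨h, hh⟩ : ∃ h, h = tr κ f := ⟨_, rfl⟩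
  have hfs : Tendsto (fun s => lin fs (z s).1) 𝒰 (𝓝 f) := by
    rw [hf]
    exact ((continuous_lin fs).tendsto c).comp hc1
  have hhs : Tendsto (fun s => tr (z s).2 (lin fs (z s).1)) 𝒰 (𝓝 h) := by
    rw [hh]
    exact tendsto_tr hk1 hfs
  -- limit of lam | |
  have hlamcont : ∀ (a : K → C(L, ℝ)) (b : C(L, ℝ)), Tendsto a 𝒰 (𝓝 b) →
      Tendsto (fun s => lam |a s|) 𝒰 (𝓝 (lam |b|)) := by
    intro a b hab
    rw [tendsto_iff_dist_tendsto_zero]
    apply squeeze_zero (g := fun s => lam 1 * ‖a s - b‖) (fun s => dist_nonneg)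
    · intro s
      rw [Real.dist_eq, ← map_sub]
      have e1 : |lam (|a s| - |b|)| ≤ lam |(|a s| - |b|)| := by
        rw [abs_le]
        constructor
        · have hneg : -|(|a s| - |b|)| ≤ |a s| - |b| := fun x => neg_abs_le (|a s x| - |b x|)
          have := hlam.mono hneg
          rw [map_neg] at this
          exact this
        · exact hlam.mono (le_abs_self _)
      have e2 : lam |(|a s| - |b|)| ≤ lam |a s - b| :=
        hlam.mono (fun x => abs_abs_sub_abs_le (a s x) (b x))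
      exact (e1.trans e2).trans (hlam.abs_le_norm _)
    · have := (tendsto_iff_norm_sub_tendsto_zero.mp hab).const_mul (lam 1)
      rwa [mul_zero] at this
  have hlim1 : Tendsto (fun s => lam |lin fs (z s).1 - tr (z s).2 (lin fs (z s).1)|) 𝒰
      (𝓝 (lam |f - h|)) := hlamcont _ _ (hfs.sub hhs)
  have hlim2 : Tendsto (fun s => F s (tr (z s).2 (lin fs (z s).1))) 𝒰 (𝓝 (F' h)) := by
    have e1 : Tendsto (fun s => F s h) 𝒰 (𝓝 (F' h)) :=
      ((WeakDual.eval_continuous h).tendsto F').comp hF'lim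
    have e2 : Tendsto (fun s => F s (tr (z s).2 (lin fs (z s).1) - h)) 𝒰 (𝓝 0) := by
      apply squeeze_zero_norm (a := fun s => lam |tr (z s).2 (lin fs (z s).1) - h|)
      · intro s
        exact hF s _
      · have := hlamcont _ _ (hhs.sub (tendsto_const_nhds (x := h)))
        simpa using this
    have e3 := e2.add e1
    rw [zero_add] at e3
    have e4 : ∀ s, F s (tr (z s).2 (lin fs (z s).1) - h) + F s h
        = F s (tr (z s).2 (lin fs (z s).1)) := fun s => by rw [map_sub, sub_add_cancel]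
    simp only [e4] at e3
    exact e3
  have hlim3 : Tendsto (fun s => (defect lam (μ s) + η) * (z s).2) 𝒰 (𝓝 ((v' + η) * κ)) :=
    (hv'lim.add_const η).mul hk1
  have hlim4 : Tendsto (fun s => G (lin fs (z s).1)) 𝒰 (𝓝 (G f)) :=
    ((G : C(L, ℝ) →L[ℝ] ℝ).continuous.tendsto f).comp hfs
  have hkey : lam |f - h| + F' h + (v' + η) * κ + ρ ≤ G f := by
    apply le_of_tendsto_of_tendsto (((hlim1.add hlim2).add hlim3).add_const ρ) hlim4
    filter_upwards [hbad] with s hs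
    exact (hz s hs).2.2.2
  -- the jump inequality
  have hjump : ∀ g, F t g - F' g ≤ (v' - defect lam (μ t)) * ‖g‖ := by
    apply nearest_add hlam (μ t) (hF t) hF'mem (hFμ t) hv'mem.1
    intro g
    have e1 : Tendsto (fun s => μ s g - F s g) 𝒰 (𝓝 (μ t g - F' g)) :=
      (((hμ g).tendsto t).mono_left h𝒰).sub
        (((WeakDual.eval_continuous g).tendsto F').comp hF'lim)
    have e2 : Tendsto (fun s => defect lam (μ s) * ‖g‖) 𝒰 (𝓝 (v' * ‖g‖)) :=
      hv'lim.mul_const _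
    exact le_of_tendsto_of_tendsto e1 e2 (Filter.Eventually.of_forall (fun s => hFμ s g))
  have hh1 : ‖h‖ ≤ κ := by rw [hh]; exact norm_tr_le hκ0 f
  have e1 : G (f - h) ≤ lam |f - h| := (le_abs_self _).trans (hG _)
  have e2 := hGF h
  have e3 := hjump h
  have e4 : G f = G (f - h) + G h := by rw [← map_add, sub_add_cancel]
  have e5 : (v' + η) * ‖h‖ ≤ (v' + η) * κ := by
    have : 0 ≤ v' + η := by linarith [hv'mem.1]
    gcongr
  nlinarith

end lsc

end Pool.Agent.WeakEss
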